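import Mathlib

/-!
If exactly one `i < k` has `(n - i) ∤ C(n,k)`, then `n mod p < k mod p` for all primes
`√k < p ≤ k` not dividing that `n - i`.
-/

namespace Pool.Agent.ESel

open Finset Nat

/-- the failing indices -/
def bad (n k : ℕ) : Finset ℕ := (range k).filter fun i => ¬ (n - i) ∣ n.choose k

theorem exists_bad {n k p : ℕ} (hp : p.Prime) (hpk : p ≤ k) (hkp : k < p ^ 2) (hn : k < n)
    (h : k % p ≤ n % p) : ∃ i < k, p ∣ n - i ∧ ¬ (n - i) ∣ n.choose k := by
  classical
  have hp0 := hp.pos
  have hk0 : 0 < k := by omega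
  obtain ⟨i, hi, hmax⟩ := exists_max_image (range k) (fun i => (n - i).factorization p)
    ⟨0, by simpa using hk0⟩
  rw [mem_range] at hi
  have hni : n - i ≠ 0 := by omega
  -- an index with p | n - i
  have h1 : 1 ≤ (n - i).factorization p := by
    have hj : n % p < k := (Nat.mod_lt n hp0).trans_le hpk
    have h2 := hmax (n % p) (by simpa using hj)
    refine le_trans ?_ h2
    have h3 : p ∣ n - n % p := Nat.dvd_sub_mod n
    have h4 : n - n % p ≠ 0 := by omega
    exact (hp.dvd_iff_one_le_factorization h4).mp h3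
  refine ⟨i, hi, (hp.dvd_iff_one_le_factorization hni).mpr h1, ?_⟩
  intro hdvd
  have hc0 : n.choose k ≠ 0 := (Nat.choose_pos hn.le).ne'
  have h5 : (n - i).factorization p ≤ (n.choose k).factorization p :=
    (Nat.factorization_le_iff_dvd hni hc0).mpr hdvd p
  rw [factorization_choose hp hn.le (Nat.lt_succ_self _)] at h5
  have h6 : (Ico 1 (Nat.log p n).succ).filter (fun j => p ^ j ≤ k % p ^ j + (n - k) % p ^ j) ⊆
      Ioc 1 ((n - i).factorization p) := by
    intro j hj
    rw [mem_filter, mem_Ico] at hj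
    obtain ⟨⟨hj1, -⟩, hj2⟩ := hj
    rw [mem_Ioc]
    by_cases hj' : j = 1
    · exfalso
      subst hj'
      rw [pow_one] at hj2
      have e1 : (n - k) % p = n % p - k % p := by
        have e2 : n - k = (n / p - k / p) * p + (n % p - k % p) := by
          have e3 : k / p ≤ n / p := Nat.div_le_div_right hn.le
          have e4 := Nat.div_add_mod n p
          have e5 := Nat.div_add_mod k p
          zify [hn.le, e3, h]
          zify at e4 e5
          linear_combination (-1 : ℤ) * e4 + e5
        rw [e2, Nat.mul_comm, Nat.mul_add_mod]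
        exact Nat.mod_eq_of_lt ((Nat.sub_le _ _).trans_lt (Nat.mod_lt n hp0))
      rw [e1] at hj2
      have := Nat.mod_lt n hp0
      omega
    · have hj3 : 2 ≤ j := by omega
      refine ⟨by omega, ?_⟩
      have hkj : k < p ^ j := hkp.trans_le (Nat.pow_le_pow_right hp0 hj3)
      rw [Nat.mod_eq_of_lt hkj] at hj2
      -- a multiple of p ^ j in (n-k, n]
      set r := (n - k) % p ^ j with hr
      have hpj : 0 < p ^ j := Nat.pow_pos hp0
      have hrlt : r < p ^ j := Nat.mod_lt _ hpj
      set i' := k - (p ^ j - r) with hi'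
      have hi'k : i' < k := by omega
      have hdiv : p ^ j ∣ n - i' := by
        have e1 : n - i' = (n - k - r) + p ^ j := by
          have := Nat.mod_le (n - k) (p ^ j)
          omega
        rw [e1]
        exact dvd_add (Nat.dvd_sub_mod (n - k)) dvd_rfl
      have hni' : n - i' ≠ 0 := by omega
      have h7 := hmax i' (by simpa using hi'k)
      exact ((hp.pow_dvd_iff_le_factorization hni').mp hdiv).trans h7
  have h7 := card_le_card h6
  rw [Nat.card_Ioc] at h7
  omega

/-- if exactly one index fails, then `n mod p < k mod p` for `√k < p ≤ k`, `p ∤ n - i₀`. -/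
theorem mod_lt_of_bad {n k i0 p : ℕ} (hbad : bad n k = {i0}) (hp : p.Prime) (hpk : p ≤ k)
    (hkp : k < p ^ 2) (hn : k < n) (hdiv : ¬ p ∣ n - i0) : n % p < k % p := by
  by_contra hcon
  push Not at hcon
  obtain ⟨i, hi, hpi, hni⟩ := exists_bad hp hpk hkp hn hcon
  have : i ∈ bad n k := by
    unfold bad
    rw [mem_filter, mem_range]
    exact ⟨hi, hni⟩
  rw [hbad, mem_singleton] at this
  rw [this] at hpi
  exact hdiv hpi

/-- number of primes `> y` dividing `m`: at most `log m / log y` -/
theorem card_primes_dvd {m : ℕ} (hm : 0 < m) {y : ℕ} (hy : 1 < y) (S : Finset ℕ)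
    (hS : ∀ p ∈ S, p.Prime ∧ y < p ∧ p ∣ m) : (S.card : ℝ) * Real.log y ≤ Real.log m := by
  have h1 : ∏ p ∈ S, p ∣ m :=
    Finset.prod_primes_dvd m (fun p hp => (hS p hp).1.prime) fun p hp => (hS p hp).2.2
  have h2 : y ^ S.card ≤ ∏ p ∈ S, p := by
    rw [← Finset.prod_const]
    exact Finset.prod_le_prod' fun p hp => (hS p hp).2.1.le
  have h3 : y ^ S.card ≤ m := h2.trans (Nat.le_of_dvd hm h1)
  have h4 : ((y : ℝ)) ^ S.card ≤ m := by exact_mod_cast h3
  rw [← Real.log_pow]
  refine Real.log_le_log (by positivity) h4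

end Pool.Agent.ESel
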