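import Mathlib
import Pool.Agent.ESel.Kummer
import Pool.Agent.PNT.Short

/-!
The range `2k ≤ n ≤ 200k`.
-/

namespace Pool.Agent.ESel

open Finset Nat Filter

theorem good_range {n k p m s t : ℕ} (hm : 2 ≤ m) (hks : k = p + s) (ht : n + t = m * k)
    (htk : t < k) (hms : m * s < p) (hgood : n % p < k % p) : t ≤ m * s ∧ (m - 1) * s < t := by
  obtain ⟨m', rfl⟩ : ∃ m', m = m' + 1 := ⟨m - 1, by omega⟩
  have hm' : 1 ≤ m' := by omega
  rw [Nat.add_sub_cancel]
  have hs : s < p := lt_of_le_of_lt (Nat.le_mul_of_pos_left s (by omega)) hms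
  have hk : k % p = s := by
    rw [hks, Nat.add_mod_left]
    exact Nat.mod_eq_of_lt hs
  rw [hk] at hgood
  have hss : s ≤ m' * s := Nat.le_mul_of_pos_left s (by omega)
  have hmul : (m' + 1) * s = m' * s + s := by ring
  have hmk : (m' + 1) * k = m' * p + p + (m' * s + s) := by rw [hks]; ring
  rw [hmk] at ht
  rw [hmul] at hms ⊢
  by_cases h : t ≤ m' * s + s
  · refine ⟨h, ?_⟩
    have e1 : n = (m' + 1) * p + (m' * s + s - t) := by
      have : (m' + 1) * p = m' * p + p := by ring
      omega
    have e2 : n % p = m' * s + s - t := by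
      rw [e1, Nat.add_comm, Nat.add_mul_mod_self_right]
      exact Nat.mod_eq_of_lt (by omega)
    omega
  · exfalso
    push Not at h
    have e1 : n = m' * p + (p + (m' * s + s) - t) := by omega
    have e2 : n % p = p + (m' * s + s) - t := by
      rw [e1, Nat.add_comm, Nat.add_mul_mod_self_right]
      exact Nat.mod_eq_of_lt (by omega)
    omega

/-- for large `k` there are two primes between `αk` and `βk` -/
theorem two_primes {α β : ℝ} (hα : 0 < α) (hαβ : α < β) : ∀ᶠ k : ℕ in atTop,
    ∃ p q : ℕ, p.Prime ∧ q.Prime ∧ p ≠ q ∧ α * k < p ∧ (p : ℝ) ≤ β * k ∧ α * k < q ∧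
      (q : ℝ) ≤ β * k := by
  have h := (PNT.primes_interval hα hαβ.le (c := (β - α) / 2) (by linarith))
  have h2 := tendsto_natCast_atTop_atTop (R := ℝ) |>.eventually h
  have h3 : ∀ᶠ x : ℝ in atTop, 1 < (β - α) / 2 * x / Real.log x := by
    have h4 : Tendsto (fun x : ℝ => (β - α) / 2 * (x / Real.log x)) atTop atTop := by
      refine Tendsto.const_mul_atTop (by linarith) ?_
      have := (Real.isLittleO_log_id_atTop).tendsto_div_nhds_zero
      have h5 : ∀ᶠ x : ℝ in atTop, 0 < Real.log x / id x := by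
        filter_upwards [eventually_gt_atTop 1] with x hx
        have := Real.log_pos hx
        simp only [id]
        positivity
      have h6 : Tendsto (fun x : ℝ => (Real.log x / id x)⁻¹) atTop atTop :=
        (tendsto_nhdsWithin_iff.mpr ⟨this, h5⟩).inv_tendsto_nhdsGT_zero
      refine h6.congr fun x => ?_
      simp [inv_div]
    filter_upwards [h4.eventually_gt_atTop 1] with x hx
    rw [mul_div_assoc]
    exact hx
  have h4 := tendsto_natCast_atTop_atTop (R := ℝ) |>.eventually h3
  filter_upwards [h2, h4] with k hk hk2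
  have h5 := hk2.trans hk
  have h6 : 1 < ((Ioc ⌊α * (k : ℝ)⌋₊ ⌊β * (k : ℝ)⌋₊).filter Nat.Prime).card := by exact_mod_cast h5
  obtain ⟨p, hp, q, hq, hpq⟩ := Finset.one_lt_card.mp h6
  rw [mem_filter, mem_Ioc] at hp hq
  refine ⟨p, q, hp.2, hq.2, hpq, ?_, ?_, ?_, ?_⟩
  · exact Nat.lt_of_floor_lt hp.1.1
  · exact (Nat.le_floor_iff' hp.2.ne_zero).mp hp.1.2
  · exact Nat.lt_of_floor_lt hq.1.1
  · exact (Nat.le_floor_iff' hq.2.ne_zero).mp hq.1.2

theorem bounded_range : ∃ k0 : ℕ, ∀ k ≥ k0, ∀ n i0 : ℕ, 2 * k ≤ n → n ≤ 200 * k → i0 < k →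
    bad n k = {i0} → False := by
  have hA := two_primes (α := 1 - 1 / 2000) (β := 1 - 1 / 4000) (by norm_num) (by norm_num)
  have hB := two_primes (α := 1 - 1 / 500) (β := 1 - 1 / 1000) (by norm_num) (by norm_num)
  obtain ⟨k0, hk0⟩ := eventually_atTop.mp (hA.and (hB.and (eventually_ge_atTop 2000)))
  refine ⟨k0, fun k hk n i0 hn1 hn2 hi0 hbad => ?_⟩
  obtain ⟨hA, hB, hk2⟩ := hk0 k hk
  have hkn : k < n := by omega
  have hkpos : 0 < k := by omega
  -- two distinct primes > k/2 cannot both divide n - i0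
  have hdiv : ∀ p q : ℕ, p.Prime → q.Prime → p ≠ q → k < 2 * p → k < 2 * q →
      ¬ p ∣ n - i0 ∨ ¬ q ∣ n - i0 := by
    intro p q hp hq hpq h1 h2
    by_contra hcon
    push Not at hcon
    have h3 : p * q ∣ n - i0 :=
      Nat.Coprime.mul_dvd_of_dvd_of_dvd ((Nat.coprime_primes hp hq).mpr hpq) hcon.1 hcon.2
    have h4 : p * q ≤ n := (Nat.le_of_dvd (by omega) h3).trans (Nat.sub_le _ _)
    have h5 : k * k < (2 * p) * (2 * q) := Nat.mul_lt_mul'' h1 h2
    nlinarith
  set m := (n + k - 1) / k with hm
  have hm1 : n ≤ m * k := by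
    have := Nat.lt_div_mul_add hkpos (a := n + k - 1)
    rw [← hm] at this
    omega
  have hm2 : m * k < n + k := by
    have := Nat.div_mul_le_self (n + k - 1) k
    rw [← hm] at this
    omega
  have hm3 : 2 ≤ m := by
    by_contra h
    have : m ≤ 1 := by omega
    have : m * k ≤ 1 * k := Nat.mul_le_mul_right k this
    omega
  have hm4 : m ≤ 200 := by
    by_contra h
    have : 201 ≤ m := by omega
    have : 201 * k ≤ m * k := Nat.mul_le_mul_right k this
    omega
  obtain ⟨t, ht⟩ : ∃ t, t = m * k - n := ⟨_, rfl⟩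
  have ht1 : n + t = m * k := by omega
  have htk : t < k := by omega
  by_cases hc : m * k ≤ 2000 * t
  · obtain ⟨p, q, hp, hq, hpq, p1, p2, q1, q2⟩ := hA
    have key : ∀ p : ℕ, p.Prime → (1 - 1 / 2000 : ℝ) * k < p → (p : ℝ) ≤ (1 - 1 / 4000) * k →
        ¬ p ∣ n - i0 → False := by
      intro p hp p1 p2 hpn
      have hkr : (0 : ℝ) < k := by exact_mod_cast hkpos
      have a1 : p < k := by
        have : (p : ℝ) < k := by linarith
        exact_mod_cast this
      obtain ⟨s, hs⟩ : ∃ s, s = k - p := ⟨_, rfl⟩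
      have hks : k = p + s := by omega
      have a2 : 2000 * s < k := by
        have : (2000 : ℝ) * s < k := by
          have : (k : ℝ) = p + s := by exact_mod_cast hks
          linarith
        exact_mod_cast this
      have a3 : m * s < p := by
        have : m * s ≤ 200 * s := Nat.mul_le_mul_right s hm4
        omega
      have hkp : k < p ^ 2 := by nlinarith
      have hgood := mod_lt_of_bad hbad hp a1.le hkp hkn hpn
      obtain ⟨g1, g2⟩ := good_range hm3 hks ht1 htk a3 hgood
      have : 2000 * (m * s) < m * k := by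
        calc 2000 * (m * s) = m * (2000 * s) := by ring
          _ < m * k := Nat.mul_lt_mul_of_pos_left a2 (by omega)
      omega
    have hkr : (0 : ℝ) < k := by exact_mod_cast hkpos
    have b1 : k < 2 * p := by
      have : (k : ℝ) < 2 * p := by linarith
      exact_mod_cast this
    have b2 : k < 2 * q := by
      have : (k : ℝ) < 2 * q := by linarith
      exact_mod_cast this
    rcases hdiv p q hp hq hpq b1 b2 with h | h
    · exact key p hp p1 p2 h
    · exact key q hq q1 q2 h
  · push Not at hc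
    obtain ⟨p, q, hp, hq, hpq, p1, p2, q1, q2⟩ := hB
    have key : ∀ p : ℕ, p.Prime → (1 - 1 / 500 : ℝ) * k < p → (p : ℝ) ≤ (1 - 1 / 1000) * k →
        ¬ p ∣ n - i0 → False := by
      intro p hp p1 p2 hpn
      have hkr : (0 : ℝ) < k := by exact_mod_cast hkpos
      have a1 : p < k := by
        have : (p : ℝ) < k := by linarith
        exact_mod_cast this
      obtain ⟨s, hs⟩ : ∃ s, s = k - p := ⟨_, rfl⟩
      have hks : k = p + s := by omega
      have hksr : (k : ℝ) = p + s := by exact_mod_cast hks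
      have a2 : 500 * s < k := by
        have : (500 : ℝ) * s < k := by linarith
        exact_mod_cast this
      have a2' : k ≤ 1000 * s := by
        have : (k : ℝ) ≤ 1000 * s := by linarith
        exact_mod_cast this
      have a3 : m * s < p := by
        have : m * s ≤ 200 * s := Nat.mul_le_mul_right s hm4
        omega
      have hkp : k < p ^ 2 := by nlinarith
      have hgood := mod_lt_of_bad hbad hp a1.le hkp hkn hpn
      obtain ⟨g1, g2⟩ := good_range hm3 hks ht1 htk a3 hgood
      obtain ⟨m', hm'⟩ : ∃ m', m = m' + 1 := ⟨m - 1, by omega⟩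
      rw [hm'] at g2 hc
      rw [Nat.add_sub_cancel] at g2
      have hm'1 : 1 ≤ m' := by omega
      have c1 : m' * k ≤ m' * (1000 * s) := Nat.mul_le_mul_left m' a2'
      have c2 : k ≤ m' * k := Nat.le_mul_of_pos_left k (by omega)
      have c3 : m' * (1000 * s) = 1000 * (m' * s) := by ring
      have c4 : (m' + 1) * k = m' * k + k := by ring
      omega
    have hkr : (0 : ℝ) < k := by exact_mod_cast hkpos
    have b1 : k < 2 * p := by
      have : (k : ℝ) < 2 * p := by linarith
      exact_mod_cast this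
    have b2 : k < 2 * q := by
      have : (k : ℝ) < 2 * q := by linarith
      exact_mod_cast this
    rcases hdiv p q hp hq hpq b1 b2 with h | h
    · exact key p hp p1 p2 h
    · exact key q hq q1 q2 h

end Pool.Agent.ESel
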