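import Mathlib
import Pool.Agent.ESel.Kummer

/-!
`n = k!` has exactly one failing index (`k ≥ 3`).
-/

namespace Pool.Agent.ESel

open Finset

theorem choose_factorial (k : ℕ) (hk : 1 ≤ k) :
    k.factorial.choose k = ∏ i ∈ range (k - 1), (k.factorial - 1 - i) := by
  have h1 : k.factorial.descFactorial k = k.factorial * k.factorial.choose k := Nat.descFactorial_eq_factorial_mul_choose _ _
  obtain ⟨j, rfl⟩ : ∃ j, k = j + 1 := ⟨k - 1, by omega⟩
  have h2 : ((j + 1).factorial).descFactorial (j + 1) = (j + 1).factorial * ∏ i ∈ range j, ((j + 1).factorial - 1 - i) := by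
    rw [Nat.descFactorial_eq_prod_range, Finset.prod_range_succ', Nat.sub_zero, mul_comm]
    congr 1
    refine Finset.prod_congr rfl fun i _ => ?_
    omega
  rw [h2] at h1
  have h3 := Nat.eq_of_mul_eq_mul_left (Nat.factorial_pos (j + 1)) h1
  rw [Nat.add_sub_cancel]
  exact h3.symm

theorem bad_factorial {k : ℕ} (hk : 2 ≤ k) : bad k.factorial k = {0} := by
  have hkf : k ≤ k.factorial := Nat.self_le_factorial k
  ext i
  unfold bad
  rw [mem_filter, mem_range, mem_singleton]
  constructor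
  · rintro ⟨h1, h2⟩
    by_contra hi
    apply h2
    rw [choose_factorial k (by omega)]
    have : k.factorial - i = k.factorial - 1 - (i - 1) := by omega
    rw [this]
    exact Finset.dvd_prod_of_mem (fun i => k.factorial - 1 - i) (mem_range.mpr (by omega))
  · rintro rfl
    refine ⟨by omega, ?_⟩
    rw [Nat.sub_zero, choose_factorial k (by omega)]
    intro hdvd
    -- modulo k!
    have h1 : ((k.factorial : ℕ) : ℤ) ∣ ((∏ i ∈ range (k - 1), (k.factorial - 1 - i) : ℕ) : ℤ) := by
      exact_mod_cast hdvd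
    have h2 : ((∏ i ∈ range (k - 1), (k.factorial - 1 - i) : ℕ) : ℤ) =
        ∏ i ∈ range (k - 1), (((k.factorial : ℕ) : ℤ) - 1 - i) := by
      rw [Nat.cast_prod]
      refine Finset.prod_congr rfl fun i hi => ?_
      rw [mem_range] at hi
      rw [Nat.cast_sub (by omega), Nat.cast_sub (by omega)]
      simp
    rw [h2] at h1
    have h3 : ∏ i ∈ range (k - 1), (((k.factorial : ℕ) : ℤ) - 1 - i) ≡
        ∏ i ∈ range (k - 1), (-1 * ((i : ℤ) + 1)) [ZMOD ((k.factorial : ℕ) : ℤ)] := by
      refine Int.ModEq.prod fun i _ => ?_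
      refine (Int.modEq_iff_dvd.mpr ⟨-1, ?_⟩)
      ring
    have h4 : ((k.factorial : ℕ) : ℤ) ∣ ∏ i ∈ range (k - 1), (-1 * ((i : ℤ) + 1)) :=
      (Int.ModEq.dvd_iff h3).mp h1
    rw [Finset.prod_mul_distrib, Finset.prod_const] at h4
    have h5 : ∏ i ∈ range (k - 1), ((i : ℤ) + 1) = (((k - 1).factorial : ℕ) : ℤ) := by
      rw [← Finset.prod_range_add_one_eq_factorial]
      push_cast
      rfl
    rw [h5] at h4
    have h6 : ((k.factorial : ℕ) : ℤ) ∣ (((k - 1).factorial : ℕ) : ℤ) := by
      have hu : IsUnit ((-1 : ℤ) ^ (range (k - 1)).card) := (isUnit_one.neg).pow _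
      exact (hu.dvd_mul_left).mp h4
    have h7 : k.factorial ∣ (k - 1).factorial := by exact_mod_cast h6
    have h8 := Nat.le_of_dvd (Nat.factorial_pos _) h7
    have h9 : k.factorial = k * (k - 1).factorial := (Nat.mul_factorial_pred (by omega)).symm
    have h10 := Nat.factorial_pos (k - 1)
    nlinarith

theorem two_mul_le_factorial {k : ℕ} (hk : 3 ≤ k) : 2 * k ≤ k.factorial := by
  obtain ⟨j, rfl⟩ : ∃ j, k = j + 1 := ⟨k - 1, by omega⟩
  rw [Nat.factorial_succ]
  have : j ≤ j.factorial := Nat.self_le_factorial j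
  nlinarith

end Pool.Agent.ESel
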