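import Mathlib
import Pool.Agent.ExpSum.Block2

/-!
Exponential sums `∑ e(h n / x)` over short blocks, `n` between `k^{3/2}` and `k^{(2K+9)/6}`.
-/

namespace Pool.Agent.ESel

open Finset Nat

open Pool.Agent.ExpSum

/-- the relative saving -/
noncomputable def sav (K : ℕ) (L : ℝ) : ℝ :=
  Real.exp (-(L / (4 * (2 * K + 3) * 2 ^ K))) +
    2 * Real.pi * (128 * ((K : ℝ) + 3) ^ (K + 2) * 2 ^ (K + 3) * Real.exp (-(L / (2 * (2 * K + 3)))))

theorem sav_pos (K : ℕ) (L : ℝ) : 0 < sav K L := by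
  unfold sav
  have := Real.exp_pos (-(L / (4 * (2 * K + 3) * 2 ^ K)))
  have := Real.exp_pos (-(L / (2 * (2 * K + 3))))
  have := Real.pi_pos
  positivity

theorem fast_block {n k e' K : ℕ} (hk : 2 ≤ k) {L : ℝ} (hL : L = Real.log k)
    (hR1 : L / 2 ≤ Real.log (n / k)) (hR2 : 6 * Real.log (n / k) ≤ (2 * K + 3) * L)
    (he : 1 ≤ e') (he2 : Real.log e' ≤ L / 4)
    (C1 : 4 ^ (2 ^ K) * (1 + L) ^ K * 2 ^ (K + 2) ≤ Real.exp (L / (4 * (2 * K + 3))))
    (C2 : 128 * ((K : ℝ) + 3) ^ (K + 2) ≤ k / 2)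
    (C3 : 256 * ((K : ℝ) + 2) ^ (K + 1) * 2 ^ (K + 2) ≤ Real.exp (L / 4)) :
    ∃ N : ℕ, 1 ≤ N ∧ (N : ℝ) * e' ≤ k ∧ ∀ x0 : ℝ, (k : ℝ) / 2 ≤ x0 → x0 ≤ k →
      ∀ h : ℝ, 1 ≤ |h| → |h| ≤ 64 → ∀ M ≤ N,
        ‖∑ t ∈ range M, e (h * (n / (x0 + e' * t)))‖ ≤ N * sav K L := by
  have hkr : (2 : ℝ) ≤ k := by exact_mod_cast hk
  have hk0 : (0 : ℝ) < k := by linarith
  have hLpos : 0 < L := by rw [hL]; exact Real.log_pos (by linarith)
  have hexpL : Real.exp L = k := by rw [hL]; exact Real.exp_log hk0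
  have he0 : (0 : ℝ) < e' := by exact_mod_cast he
  obtain ⟨R, hR⟩ : ∃ R : ℝ, R = n / k := ⟨_, rfl⟩
  rw [← hR] at hR1 hR2
  have hRpos : 0 < R := by
    by_contra hcon
    push Not at hcon
    have hRnn : 0 ≤ R := by rw [hR]; positivity
    have : R = 0 := le_antisymm hcon hRnn
    rw [this, Real.log_zero] at hR1
    linarith
  obtain ⟨lR, hlR⟩ : ∃ lR, lR = Real.log R := ⟨_, rfl⟩
  rw [← hlR] at hR1 hR2
  have hexpR : Real.exp lR = R := by rw [hlR]; exact Real.exp_log hRpos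
  have hnR : (n : ℝ) = R * k := by rw [hR]; field_simp
  have hn0 : (0 : ℝ) < n := by rw [hnR]; positivity
  have hK0 : (0 : ℝ) ≤ K := Nat.cast_nonneg K
  obtain ⟨g, hg⟩ : ∃ g : ℝ, g = 2 * K + 3 := ⟨_, rfl⟩
  have hg3 : 3 ≤ g := by rw [hg]; linarith
  have hg0 : 0 < g := by linarith
  rw [← hg] at hR2 C1
  obtain ⟨q, hq⟩ : ∃ q : ℝ, q = R ^ 2 * ((e' : ℝ) / k) ^ (2 * K + 3) := ⟨_, rfl⟩
  have hq0 : 0 < q := by rw [hq]; positivity
  obtain ⟨le, hle⟩ : ∃ le, le = Real.log e' := ⟨_, rfl⟩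
  rw [← hle] at he2
  have hexpe : Real.exp le = e' := by rw [hle]; exact Real.exp_log he0
  have hle0 : 0 ≤ le := by rw [hle]; exact Real.log_nonneg (by exact_mod_cast he)
  have hgc : ((2 * K + 3 : ℕ) : ℝ) = g := by rw [hg]; push_cast; ring
  have hlogq : Real.log q = 2 * lR + g * (le - L) := by
    rw [hq, Real.log_mul (by positivity) (by positivity), Real.log_pow, Real.log_pow,
      Real.log_div he0.ne' hk0.ne', ← hlR, ← hle, ← hL, hgc]
    push_cast
    ring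
  have hq1 : q ≤ 1 := by
    rw [← Real.log_nonpos_iff hq0.le, hlogq]
    nlinarith
  obtain ⟨N, hN1, hN2, hN3⟩ := exists_N hq0 (k := 2 * K + 3) (by omega) hq1
  have hNr : (1 : ℝ) ≤ N := by exact_mod_cast hN1
  have hN0 : (0 : ℝ) < N := by linarith
  obtain ⟨lN, hlN⟩ : ∃ lN, lN = Real.log N := ⟨_, rfl⟩
  have hexpN : Real.exp lN = N := by rw [hlN]; exact Real.exp_log hN0
  have hlN0 : 0 ≤ lN := by rw [hlN]; exact Real.log_nonneg hNr
  -- logs of the two inequalities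
  obtain ⟨lz, hlz⟩ : ∃ lz, lz = lN + le - L := ⟨_, rfl⟩
  have hz1 : 2 * lR + g * lz ≤ 0 := by
    have h1 : Real.log (q * (N : ℝ) ^ (2 * K + 3)) ≤ 0 := by
      rw [Real.log_nonpos_iff (by positivity)]; exact hN2
    rw [Real.log_mul hq0.ne' (by positivity), hlogq, Real.log_pow, ← hlN, hgc] at h1
    rw [hlz]; linarith
  have hz2 : 0 ≤ 2 * lR + g * (lz + Real.log 2) := by
    have h1 : Real.log (1 / q) ≤ Real.log ((2 * (N : ℝ)) ^ (2 * K + 3)) :=
      Real.log_le_log (by positivity) hN3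
    rw [one_div, Real.log_inv, hlogq, Real.log_pow, Real.log_mul (by norm_num) hN0.ne', ← hlN,
      hgc] at h1
    rw [hlz]; linarith
  have hlz0 : lz ≤ 0 := by
    have : 0 ≤ lR := by linarith
    nlinarith
  have hlogNe : lN + le ≤ L := by linarith
  refine ⟨N, hN1, ?_, ?_⟩
  · rw [← hexpN, ← hexpe, ← Real.exp_add, ← hexpL]
    exact Real.exp_le_exp.mpr hlogNe
  intro x0 hx1 hx2 h hh1 hh2 M hM
  have hx0 : 0 < x0 := by linarith
  have hx01 : 1 ≤ x0 := by linarith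
  obtain ⟨Lam, hLam⟩ : ∃ Lam : ℝ, Lam = (n : ℝ) / x0 ^ 1 * (((1 : ℕ) : ℝ) * e' / x0) ^ (K + 1) :=
    ⟨_, rfl⟩
  have hLam0 : 0 < Lam := by rw [hLam]; positivity
  have hex : (e' : ℝ) / x0 ≤ 2 * e' / k := by
    calc (e' : ℝ) / x0 ≤ e' / (k / 2) := by gcongr
      _ = 2 * e' / k := by field_simp
  have hLamle : Lam ≤ 2 * R * (2 * e' / k) ^ (K + 1) := by
    rw [hLam, pow_one, Nat.cast_one, one_mul]
    have h1 : (n : ℝ) / x0 ≤ 2 * R := by
      calc (n : ℝ) / x0 ≤ n / (k / 2) := by gcongr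
        _ = 2 * R := by rw [hR]; field_simp
    gcongr
  have hLamge : R * (e' / k) ^ (K + 1) ≤ Lam := by
    rw [hLam, pow_one, Nat.cast_one, one_mul]
    have h1 : R ≤ (n : ℝ) / x0 := by
      rw [hR]; gcongr
    have h2 : (e' : ℝ) / k ≤ e' / x0 := by gcongr
    gcongr
  have hexpz : Real.exp lz = N * e' / k := by
    rw [hlz, Real.exp_sub, Real.exp_add, hexpN, hexpe, hexpL]
  have hexp2 : Real.exp (Real.log 2) = 2 := Real.exp_log (by norm_num)
  have hlRg : lR / g ≤ L / 6 := by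
    rw [div_le_div_iff₀ hg0 (by norm_num)]; linarith
  have hlRg2 : L / (2 * g) ≤ lR / g := by
    rw [div_le_div_iff₀ (by positivity) hg0]; nlinarith
  have hlz' : lz ≤ -(2 * (lR / g)) := by
    have : g * lz ≤ g * (-(2 * (lR / g))) := by
      have : g * (-(2 * (lR / g))) = -(2 * lR) := by field_simp
      rw [this]; linarith
    exact le_of_mul_le_mul_left this hg0
  have hlz'' : -(2 * (lR / g)) - Real.log 2 ≤ lz := by
    have : g * (-(2 * (lR / g)) - Real.log 2) ≤ g * lz := by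
      have : g * (-(2 * (lR / g)) - Real.log 2) = -(2 * lR) - g * Real.log 2 := by field_simp
      rw [this]; linarith
    exact le_of_mul_le_mul_left this hg0
  have hlRdec : lR = (2 * K + 3) * (lR / g) := by rw [← hg]; field_simp
  obtain ⟨y, hy⟩ : ∃ y, y = lR / g := ⟨_, rfl⟩
  rw [← hy] at hlRg hlRg2 hlz' hlz'' hlRdec
  have hy0 : 0 ≤ y := by
    have : 0 < L / (2 * g) := by positivity
    linarith
  have hdeltaeq : (Real.exp (-(L / (4 * (2 * K + 3) * 2 ^ K)))) ^ (2 ^ K) =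
      Real.exp (-(L / (4 * g))) := by
    rw [← Real.exp_nat_mul, ← hg]
    congr 1
    push_cast
    field_simp
  have key := block (n := (n : ℝ)) (x0 := x0) (d := (e' : ℝ)) (T := 64) (r := 0) (m := 1) (K := K)
    (N := N) (h := fun _ => h) hn0 hx01 he0 le_rfl hN1 hh1 (fun i _ => hh2)
    (by
      push_cast
      rw [zero_add]
      calc 2 * 64 * ((K : ℝ) + 3) ^ (K + 2) = 128 * ((K : ℝ) + 3) ^ (K + 2) := by ring
        _ ≤ k / 2 := C2
        _ ≤ x0 := hx1)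
    (Lam := Lam) hLam
    (by
      -- hsmall
      have h1 : Lam * (N : ℝ) ^ K ≤ 2 ^ (K + 2) * Real.exp (-(L / 4)) := by
        calc Lam * (N : ℝ) ^ K ≤ 2 * R * (2 * e' / k) ^ (K + 1) * (N : ℝ) ^ K := by gcongr
          _ = 2 ^ (K + 2) * (R * (N * e' / k) ^ K * (e' / k)) := by
              rw [mul_div_assoc 2, mul_pow 2]
              ring
          _ = 2 ^ (K + 2) * Real.exp (lR + K * lz + (le - L)) := by
              rw [Real.exp_add, Real.exp_add, Real.exp_sub, Real.exp_nat_mul, hexpz, hexpR, hexpe,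
                hexpL]
          _ ≤ 2 ^ (K + 2) * Real.exp (-(L / 4)) := by
              refine mul_le_mul_of_nonneg_left (Real.exp_le_exp.mpr ?_) (by positivity)
              have : (K : ℝ) * lz ≤ K * (-(2 * y)) := mul_le_mul_of_nonneg_left hlz' hK0
              linarith
      calc 2 * 64 * ((K : ℝ) + 2) ^ (K + 1) * Lam * (N : ℝ) ^ K =
          128 * ((K : ℝ) + 2) ^ (K + 1) * (Lam * (N : ℝ) ^ K) := by ring
        _ ≤ 128 * ((K : ℝ) + 2) ^ (K + 1) * (2 ^ (K + 2) * Real.exp (-(L / 4))) := by gcongr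
        _ = (256 * ((K : ℝ) + 2) ^ (K + 1) * 2 ^ (K + 2)) * Real.exp (-(L / 4)) / 2 := by ring
        _ ≤ Real.exp (L / 4) * Real.exp (-(L / 4)) / 2 := by gcongr
        _ = 1 / 2 := by rw [← Real.exp_add]; simp)
    (B := N * Real.exp (-(L / (4 * (2 * K + 3) * 2 ^ K)))) (by positivity)
    (by
      rw [div_le_iff₀ hLam0, mul_pow, hdeltaeq]
      have h2K : K + 1 ≤ 2 ^ K := Nat.lt_two_pow_self
      have hsplit : (N : ℝ) ^ (2 ^ K) = (N : ℝ) ^ (2 ^ K - K - 1) * (N : ℝ) ^ (K + 1) := by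
        rw [← pow_add]
        congr 1
        omega
      rw [hsplit]
      have h3 : Real.exp (L / (2 * g)) ≤ 2 ^ (K + 1) * (Lam * (N : ℝ) ^ (K + 1)) := by
        calc Real.exp (L / (2 * g)) ≤ Real.exp ((K + 1 : ℕ) * Real.log 2 +
            (lR + (K + 1 : ℕ) * lz)) := by
              refine Real.exp_le_exp.mpr ?_
              push_cast
              have : ((K : ℝ) + 1) * (-(2 * y) - Real.log 2) ≤ ((K : ℝ) + 1) * lz :=
                mul_le_mul_of_nonneg_left hlz'' (by positivity)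
              linarith
          _ = 2 ^ (K + 1) * (R * (e' / k) ^ (K + 1) * (N : ℝ) ^ (K + 1)) := by
              rw [Real.exp_add, Real.exp_add, Real.exp_nat_mul, Real.exp_nat_mul, hexp2, hexpz,
                hexpR]
              ring
          _ ≤ 2 ^ (K + 1) * (Lam * (N : ℝ) ^ (K + 1)) := by gcongr
      have h4 : (1 + Real.log (N : ℝ)) ^ K ≤ (1 + L) ^ K := by
        refine pow_le_pow_left₀ (by rw [← hlN]; linarith) ?_ K
        rw [← hlN]; linarith
      have h5 : 4 ^ (2 ^ K) * (1 + L) ^ K * 2 ≤ Lam * (N : ℝ) ^ (K + 1) * Real.exp (-(L / (4 * g))) := by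
        have h6 : Real.exp (L / (2 * g)) * Real.exp (-(L / (4 * g))) = Real.exp (L / (4 * g)) := by
          rw [← Real.exp_add]
          congr 1
          field_simp
          ring
        have h7 : Real.exp (L / (4 * g)) ≤
            2 ^ (K + 1) * (Lam * (N : ℝ) ^ (K + 1)) * Real.exp (-(L / (4 * g))) := by
          rw [← h6]; gcongr
        have h8 := C1.trans h7
        have h9 : (2 : ℝ) ^ (K + 2) = 2 ^ (K + 1) * 2 := by ring
        rw [h9] at h8
        have h10 : (0 : ℝ) < 2 ^ (K + 1) := by positivity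
        refine le_of_mul_le_mul_left ?_ h10
        calc (2 : ℝ) ^ (K + 1) * (4 ^ (2 ^ K) * (1 + L) ^ K * 2) =
            4 ^ (2 ^ K) * (1 + L) ^ K * (2 ^ (K + 1) * 2) := by ring
          _ ≤ 2 ^ (K + 1) * (Lam * (N : ℝ) ^ (K + 1)) * Real.exp (-(L / (4 * g))) := h8
          _ = _ := by ring
      have hNp : (0 : ℝ) ≤ (N : ℝ) ^ (2 ^ K - K - 1) := by positivity
      calc (4 : ℝ) ^ (2 ^ K) * (N : ℝ) ^ (2 ^ K - K - 1) * (1 + Real.log N) ^ K * 2 =
          (N : ℝ) ^ (2 ^ K - K - 1) * (4 ^ (2 ^ K) * (1 + Real.log N) ^ K * 2) := by ring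
        _ ≤ (N : ℝ) ^ (2 ^ K - K - 1) * (4 ^ (2 ^ K) * (1 + L) ^ K * 2) := by gcongr
        _ ≤ (N : ℝ) ^ (2 ^ K - K - 1) *
            (Lam * (N : ℝ) ^ (K + 1) * Real.exp (-(L / (4 * g)))) := by gcongr
        _ = _ := by ring)
    (eta := 128 * ((K : ℝ) + 3) ^ (K + 2) * 2 ^ (K + 3) * Real.exp (-(L / (2 * (2 * K + 3)))))
    (by
      have h1 : Lam * (((1 : ℕ) : ℝ) * e' / x0) * (N : ℝ) ^ (K + 2) ≤
          2 ^ (K + 3) * Real.exp (-(L / (2 * (2 * K + 3)))) := by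
        have h2 : (((1 : ℕ) : ℝ) * e' / x0) ≤ 2 * e' / k := by
          rw [Nat.cast_one, one_mul]; exact hex
        calc Lam * (((1 : ℕ) : ℝ) * e' / x0) * (N : ℝ) ^ (K + 2) ≤
            2 * R * (2 * e' / k) ^ (K + 1) * (2 * e' / k) * (N : ℝ) ^ (K + 2) := by gcongr
          _ = 2 ^ (K + 3) * (R * (N * e' / k) ^ (K + 2)) := by
              rw [mul_div_assoc 2, mul_pow 2]
              ring
          _ = 2 ^ (K + 3) * Real.exp (lR + (K + 2 : ℕ) * lz) := by
              rw [Real.exp_add, Real.exp_nat_mul, hexpz, hexpR]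
          _ ≤ 2 ^ (K + 3) * Real.exp (-(L / (2 * (2 * K + 3)))) := by
              refine mul_le_mul_of_nonneg_left (Real.exp_le_exp.mpr ?_) (by positivity)
              push_cast
              rw [← hg]
              have : ((K : ℝ) + 2) * lz ≤ (K + 2) * (-(2 * y)) :=
                mul_le_mul_of_nonneg_left hlz' (by positivity)
              linarith
      calc 2 * 64 * (((0 : ℕ) : ℝ) + K + 3) ^ (K + 2) * Lam * (((1 : ℕ) : ℝ) * e' / x0) *
          (N : ℝ) ^ (K + 2) = 128 * ((K : ℝ) + 3) ^ (K + 2) *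
            (Lam * (((1 : ℕ) : ℝ) * e' / x0) * (N : ℝ) ^ (K + 2)) := by
              rw [Nat.cast_zero, zero_add]; ring
        _ ≤ 128 * ((K : ℝ) + 3) ^ (K + 2) *
            (2 ^ (K + 3) * Real.exp (-(L / (2 * (2 * K + 3))))) := by gcongr
        _ = _ := by ring) hM
  have hphase : ∀ x : ℝ, phase (n : ℝ) 0 1 (fun _ => h) x = h * (n / x) := by
    intro x
    simp [phase]
  simp_rw [hphase] at key
  refine key.trans (le_of_eq ?_)
  unfold sav
  ring

end Pool.Agent.ESel
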