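import Mathlib
import Pool.Agent.ESel.Kummer
import Pool.Agent.ExpSum.Sieve

/-!
The range `200k ≤ n ≤ k^{3/2}`: few primes `p ∈ (64k/65, k]` with `n mod p < p/64`.
-/

namespace Pool.Agent.ESel

open Finset Nat Filter

open Pool.Agent.ExpSum

/-- multiples of `e` in an interval -/
theorem card_mult (a b e : ℕ) (hab : a ≤ b) (he : 0 < e) :
    |(((Ioc a b).filter fun x => e ∣ x).card : ℝ) - ((b : ℝ) - a) / e| ≤ 1 := by
  have h1 : ((Ioc a b).filter fun x => e ∣ x).card + a / e = b / e := by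
    rw [← Nat.Ioc_filter_dvd_card_eq_div a e, ← Nat.Ioc_filter_dvd_card_eq_div b e,
      ← Finset.card_union_of_disjoint, ← Finset.filter_union, Finset.union_comm,
      Finset.Ioc_union_Ioc_eq_Ioc (Nat.zero_le _) hab]
    refine Finset.disjoint_filter_filter ?_
    rw [Finset.disjoint_left]
    intro p hp hp2
    rw [Finset.mem_Ioc] at hp hp2
    omega
  have h2 : (((Ioc a b).filter fun x => e ∣ x).card : ℝ) = ((b / e : ℕ) : ℝ) - ((a / e : ℕ) : ℝ) := by
    rw [← h1]; push_cast; ring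
  have he' : (0 : ℝ) < e := by exact_mod_cast he
  have a1 : ((a / e : ℕ) : ℝ) ≤ (a : ℝ) / e := Nat.cast_div_le
  have a2 : (a : ℝ) / e < ((a / e : ℕ) : ℝ) + 1 := by
    rw [div_lt_iff₀ he']
    have := Nat.lt_div_mul_add he (a := a)
    have h3 : a < (a / e + 1) * e := by rw [add_mul, one_mul]; exact this
    exact_mod_cast h3
  have b1 : ((b / e : ℕ) : ℝ) ≤ (b : ℝ) / e := Nat.cast_div_le
  have b2 : (b : ℝ) / e < ((b / e : ℕ) : ℝ) + 1 := by
    rw [div_lt_iff₀ he']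
    have := Nat.lt_div_mul_add he (a := b)
    have h3 : b < (b / e + 1) * e := by rw [add_mul, one_mul]; exact this
    exact_mod_cast h3
  rw [h2, sub_div, abs_le]
  constructor <;> linarith

/-- Brun–Titchmarsh type bound -/
theorem brun_titchmarsh {D : ℕ} (hD : 1 ≤ D) (a b : ℕ) (hab : a ≤ b) :
    (((Ioc a b).filter fun x => x.Prime ∧ D < x).card : ℝ) ≤
      ((b : ℝ) - a) / Real.log (D + 1) + D ^ 2 := by
  have h := selberg hD (Ioc a b) (fun _ => 1) (fun _ _ => zero_le_one) (X := (b : ℝ) - a)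
    (by have : (a : ℝ) ≤ b := by exact_mod_cast hab
        linarith) (fun _ => 1) (by
      intro e he _
      rw [Finset.sum_const, nsmul_eq_mul, mul_one]
      exact card_mult a b e hab he)
  rw [Finset.sum_const, nsmul_eq_mul, mul_one] at h
  refine h.trans (le_of_eq ?_)
  simp only [Finset.sum_const, Nat.card_Icc, Nat.add_sub_cancel, nsmul_eq_mul, mul_one]
  ring

/-- primes `p ∈ (64k/65, k]` with `64 (n mod p) < p` -/
def goodP (n k : ℕ) : Finset ℕ :=
  (Ioc (64 * k / 65) k).filter fun p => p.Prime ∧ 64 * (n % p) < p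

theorem goodP_subset {n k D : ℕ} (hk : 0 < k) (hkn : k ≤ n) (hD : D ≤ 64 * k / 65) :
    goodP n k ⊆ (Icc (n / k) (n / (64 * k / 65 + 1))).biUnion fun m =>
      (Ioc (64 * n / (64 * m + 1)) (n / m)).filter fun x => x.Prime ∧ D < x := by
  intro p hp
  unfold goodP at hp
  rw [mem_filter, mem_Ioc] at hp
  obtain ⟨⟨h1, h2⟩, h3, h4⟩ := hp
  have hp0 : 0 < p := h3.pos
  have hm1 : 1 ≤ n / p := by
    rw [Nat.le_div_iff_mul_le hp0]
    omega
  rw [mem_biUnion]
  refine ⟨n / p, ?_, ?_⟩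
  · rw [mem_Icc]
    exact ⟨Nat.div_le_div_left h2 hp0, Nat.div_le_div_left h1 (by omega)⟩
  · rw [mem_filter, mem_Ioc]
    have hdm := Nat.div_add_mod n p
    set m := n / p with hm
    refine ⟨⟨?_, ?_⟩, h3, lt_of_le_of_lt hD h1⟩
    · rw [Nat.div_lt_iff_lt_mul (by omega)]
      have : 64 * n = 64 * (p * m) + 64 * (n % p) := by omega
      rw [this]
      calc 64 * (p * m) + 64 * (n % p) < 64 * (p * m) + p := by omega
        _ = p * (64 * m + 1) := by ring
    · rw [Nat.le_div_iff_mul_le (by omega)]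
      calc p * m ≤ p * m + n % p := Nat.le_add_right _ _
        _ = n := hdm

/-- the count for `n ≥ 200 k` -/
theorem card_goodP_le {n k D : ℕ} (hk : 1000 ≤ k) (hkn : 200 * k ≤ n) (hD1 : 1 ≤ D)
    (hD : D ≤ 64 * k / 65) :
    ((goodP n k).card : ℝ) ≤ (3 / 100) * (n / k) *
      (((k : ℝ) / 63 / (n / k) + 1) / Real.log (D + 1) + D ^ 2) := by
  classical
  have hk0 : 0 < k := by omega
  have hkr : (1000 : ℝ) ≤ k := by exact_mod_cast hk
  have hkr0 : (0 : ℝ) < k := by linarith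
  have hnr : (200 : ℝ) * k ≤ n := by exact_mod_cast hkn
  obtain ⟨v, hv⟩ : ∃ v : ℝ, v = n / k := ⟨_, rfl⟩
  rw [← hv]
  have hv200 : 200 ≤ v := by rw [hv, le_div_iff₀ hkr0]; exact hnr
  have hnv : (n : ℝ) = v * k := by rw [hv]; field_simp
  have hlog : 0 < Real.log (D + 1) := by
    refine Real.log_pos ?_
    have : (1 : ℝ) ≤ D := by exact_mod_cast hD1
    linarith
  -- per-m bound
  have hm : ∀ m ∈ Icc (n / k) (n / (64 * k / 65 + 1)),
      (((Ioc (64 * n / (64 * m + 1)) (n / m)).filter fun x => x.Prime ∧ D < x).card : ℝ) ≤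
        ((k : ℝ) / 63 / v + 1) / Real.log (D + 1) + D ^ 2 := by
    intro m hm
    rw [mem_Icc] at hm
    have hmv : v * (199 / 200) ≤ m := by
      have h1 : (n : ℝ) / k < ((n / k : ℕ) : ℝ) + 1 := by
        rw [div_lt_iff₀ hkr0]
        have := Nat.lt_div_mul_add hk0 (a := n)
        have h3 : n < (n / k + 1) * k := by rw [add_mul, one_mul]; exact this
        exact_mod_cast h3
      have h2 : ((n / k : ℕ) : ℝ) ≤ m := by exact_mod_cast hm.1
      rw [← hv] at h1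
      linarith
    have hm0 : (0 : ℝ) < m := by nlinarith
    have hm0' : 0 < m := by exact_mod_cast hm0
    by_cases hab : 64 * n / (64 * m + 1) ≤ n / m
    · refine (brun_titchmarsh hD1 _ _ hab).trans ?_
      gcongr
      have h1 : ((n / m : ℕ) : ℝ) ≤ (n : ℝ) / m := Nat.cast_div_le
      have h2 : ((64 * n : ℕ) : ℝ) / ((64 * m + 1 : ℕ) : ℝ) <
          ((64 * n / (64 * m + 1) : ℕ) : ℝ) + 1 := by
        rw [div_lt_iff₀ (by positivity)]
        have := Nat.lt_div_mul_add (show 0 < 64 * m + 1 by omega) (a := 64 * n)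
        have h3 : 64 * n < (64 * n / (64 * m + 1) + 1) * (64 * m + 1) := by
          rw [add_mul, one_mul]; exact this
        exact_mod_cast h3
      have h3 : (n : ℝ) / m - ((64 * n : ℕ) : ℝ) / ((64 * m + 1 : ℕ) : ℝ) ≤ (k : ℝ) / 63 / v := by
        push_cast
        have e1 : (n : ℝ) / m - 64 * n / (64 * m + 1) = n / (m * (64 * m + 1)) := by
          field_simp
          ring
        rw [e1, hnv, div_div, div_le_div_iff₀ (by positivity) (by positivity)]
        have h4 : 63 * v ^ 2 ≤ m * (64 * m + 1) := by nlinarith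
        nlinarith
      linarith
    · have : (Ioc (64 * n / (64 * m + 1)) (n / m)).filter (fun x => x.Prime ∧ D < x) = ∅ := by
        rw [Finset.Ioc_eq_empty (by omega), Finset.filter_empty]
      rw [this, Finset.card_empty, Nat.cast_zero]
      positivity
  have hcount : ((Icc (n / k) (n / (64 * k / 65 + 1))).card : ℝ) ≤ (3 / 100) * v := by
    rw [Nat.card_Icc]
    have hle : n / k ≤ n / (64 * k / 65 + 1) := Nat.div_le_div_left (by omega) (by omega)
    rw [Nat.cast_sub (by omega)]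
    have h1 : ((n / (64 * k / 65 + 1) : ℕ) : ℝ) ≤ (n : ℝ) / ((64 * k / 65 + 1 : ℕ) : ℝ) :=
      Nat.cast_div_le
    have h2 : (n : ℝ) / k < ((n / k : ℕ) : ℝ) + 1 := by
      rw [div_lt_iff₀ hkr0]
      have := Nat.lt_div_mul_add hk0 (a := n)
      have h3 : n < (n / k + 1) * k := by rw [add_mul, one_mul]; exact this
      exact_mod_cast h3
    have h3 : (n : ℝ) / ((64 * k / 65 + 1 : ℕ) : ℝ) ≤ (65 / 64) * v := by
      have h4 : (64 / 65 : ℝ) * k ≤ ((64 * k / 65 + 1 : ℕ) : ℝ) := by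
        have h5 : 64 * k ≤ 65 * (64 * k / 65 + 1) := by omega
        have h6 : (64 : ℝ) * k ≤ 65 * ((64 * k / 65 + 1 : ℕ) : ℝ) := by exact_mod_cast h5
        linarith
      calc (n : ℝ) / ((64 * k / 65 + 1 : ℕ) : ℝ) ≤ (n : ℝ) / ((64 / 65 : ℝ) * k) := by
            gcongr
        _ = (65 / 64) * v := by rw [hnv]; field_simp
    rw [← hv] at h2
    push_cast
    push_cast at h1 h3
    linarith
  calc ((goodP n k).card : ℝ) ≤ (((Icc (n / k) (n / (64 * k / 65 + 1))).biUnion fun m =>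
      (Ioc (64 * n / (64 * m + 1)) (n / m)).filter fun x => x.Prime ∧ D < x).card : ℝ) := by
        exact_mod_cast card_le_card (goodP_subset hk0 (by omega) hD)
    _ ≤ ∑ m ∈ Icc (n / k) (n / (64 * k / 65 + 1)),
        (((Ioc (64 * n / (64 * m + 1)) (n / m)).filter fun x => x.Prime ∧ D < x).card : ℝ) := by
        exact_mod_cast card_biUnion_le
    _ ≤ ∑ m ∈ Icc (n / k) (n / (64 * k / 65 + 1)),
        (((k : ℝ) / 63 / v + 1) / Real.log (D + 1) + D ^ 2) := Finset.sum_le_sum hm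
    _ = ((Icc (n / k) (n / (64 * k / 65 + 1))).card : ℝ) *
        (((k : ℝ) / 63 / v + 1) / Real.log (D + 1) + D ^ 2) := by
        rw [Finset.sum_const, nsmul_eq_mul]
    _ ≤ (3 / 100) * v * (((k : ℝ) / 63 / v + 1) / Real.log (D + 1) + D ^ 2) := by
        have : 0 ≤ ((k : ℝ) / 63 / v + 1) / Real.log (D + 1) + D ^ 2 := by positivity
        gcongr

/-- the sieve level `⌊k^{1/8}⌋` -/
noncomputable def lev (k : ℕ) : ℕ := ⌊(k : ℝ) ^ (1 / 8 : ℝ)⌋₊

theorem lev_le (k : ℕ) : (lev k : ℝ) ≤ (k : ℝ) ^ (1 / 8 : ℝ) :=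
  Nat.floor_le (by positivity)

theorem lev_pos {k : ℕ} (hk : 1 ≤ k) : 1 ≤ lev k := by
  unfold lev
  rw [Nat.one_le_floor_iff]
  exact Real.one_le_rpow (by exact_mod_cast hk) (by norm_num)

theorem lev_sq_le {k : ℕ} : (lev k : ℝ) ^ 2 ≤ (k : ℝ) ^ (1 / 4 : ℝ) := by
  have h1 : (0 : ℝ) ≤ k := Nat.cast_nonneg k
  calc (lev k : ℝ) ^ 2 ≤ ((k : ℝ) ^ (1 / 8 : ℝ)) ^ 2 := by
        gcongr
        exact lev_le k
    _ = (k : ℝ) ^ (1 / 4 : ℝ) := by
        rw [← Real.rpow_natCast, ← Real.rpow_mul h1]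
        norm_num

theorem lev_le' {k : ℕ} (hk : 1000 ≤ k) : lev k ≤ 64 * k / 65 := by
  have hkr : (1000 : ℝ) ≤ k := by exact_mod_cast hk
  have h1 : (lev k : ℝ) ≤ (k : ℝ) ^ (1 / 2 : ℝ) :=
    (lev_le k).trans (Real.rpow_le_rpow_of_exponent_le (by linarith) (by norm_num))
  rw [← Real.sqrt_eq_rpow] at h1
  have h2 : √(k : ℝ) ≤ k / 2 := by
    rw [Real.sqrt_le_left (by linarith)]
    nlinarith
  have h3 : (2 : ℝ) * lev k ≤ k := by linarith
  have h4 : 2 * lev k ≤ k := by exact_mod_cast h3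
  omega

theorem log_lev {k : ℕ} (hk : 1 ≤ k) : Real.log k / 8 ≤ Real.log ((lev k : ℝ) + 1) := by
  have hkr : (0 : ℝ) < k := by exact_mod_cast hk
  have h1 : (k : ℝ) ^ (1 / 8 : ℝ) < (lev k : ℝ) + 1 := Nat.lt_floor_add_one _
  calc Real.log k / 8 = Real.log ((k : ℝ) ^ (1 / 8 : ℝ)) := by
        rw [Real.log_rpow hkr]; ring
    _ ≤ _ := Real.log_le_log (by positivity) h1.le

/-- the slow range -/
theorem slow_range : ∃ k0 : ℕ, ∀ k ≥ k0, ∀ n : ℕ, 200 * k ≤ n → (n : ℝ) ≤ (k : ℝ) ^ (3 / 2 : ℝ) →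
    ((goodP n k).card : ℝ) ≤ (1 / 150) * (k / Real.log k) := by
  have h1 : ∀ᶠ k : ℕ in atTop, (k : ℝ) ^ (3 / 4 : ℝ) * Real.log k ≤ (1 / 25) * k := by
    have h2 := (isLittleO_log_rpow_atTop (show (0 : ℝ) < 1 / 4 by norm_num)).bound
      (show (0 : ℝ) < 1 / 25 by norm_num)
    have h3 : ∀ᶠ x : ℝ in atTop, x ^ (3 / 4 : ℝ) * Real.log x ≤ (1 / 25) * x := by
      filter_upwards [h2, eventually_gt_atTop 1] with x hx hx1
      have hx0 : 0 < x := by linarith
      rw [Real.norm_of_nonneg (Real.log_nonneg hx1.le), Real.norm_of_nonneg (by positivity)] at hx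
      calc x ^ (3 / 4 : ℝ) * Real.log x ≤ x ^ (3 / 4 : ℝ) * (1 / 25 * x ^ (1 / 4 : ℝ)) := by
            gcongr
        _ = 1 / 25 * (x ^ (3 / 4 : ℝ) * x ^ (1 / 4 : ℝ)) := by ring
        _ = (1 / 25) * x := by
            rw [← Real.rpow_add hx0]
            norm_num
    exact tendsto_natCast_atTop_atTop.eventually h3
  obtain ⟨k0, hk0⟩ := eventually_atTop.mp (h1.and (eventually_ge_atTop 1000000))
  refine ⟨k0, fun k hk n hn1 hn2 => ?_⟩
  obtain ⟨h1, hk1⟩ := hk0 k hk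
  have hkr : (1000000 : ℝ) ≤ k := by exact_mod_cast hk1
  have hkr0 : (0 : ℝ) < k := by linarith
  have hL : 0 < Real.log k := Real.log_pos (by linarith)
  refine (card_goodP_le (by omega) hn1 (lev_pos (by omega)) (lev_le' (by omega))).trans ?_
  obtain ⟨v, hv⟩ : ∃ v : ℝ, v = n / k := ⟨_, rfl⟩
  rw [← hv]
  have hnr : (200 : ℝ) * k ≤ n := by exact_mod_cast hn1
  have hv200 : 200 ≤ v := by rw [hv, le_div_iff₀ hkr0]; exact hnr
  have hv2 : v ≤ (k : ℝ) ^ (1 / 2 : ℝ) := by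
    rw [hv, div_le_iff₀ hkr0]
    refine hn2.trans (le_of_eq ?_)
    nth_rewrite 3 [← Real.rpow_one (k : ℝ)]
    rw [← Real.rpow_add hkr0]
    norm_num
  have hv3 : v ≤ k / 1000 := by
    refine hv2.trans ?_
    rw [← Real.sqrt_eq_rpow, Real.sqrt_le_left (by linarith)]
    nlinarith
  have e1 : ((k : ℝ) / 63 / v + 1) / Real.log ((lev k : ℝ) + 1) ≤
      ((k : ℝ) / 63 / v + 1) / (Real.log k / 8) := by
    have := log_lev (show 1 ≤ k by omega)
    gcongr
  have e2 : v * (lev k : ℝ) ^ 2 ≤ (k : ℝ) ^ (3 / 4 : ℝ) := by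
    calc v * (lev k : ℝ) ^ 2 ≤ (k : ℝ) ^ (1 / 2 : ℝ) * (k : ℝ) ^ (1 / 4 : ℝ) := by
          have := lev_sq_le (k := k)
          gcongr
      _ = (k : ℝ) ^ (3 / 4 : ℝ) := by
          rw [← Real.rpow_add hkr0]; norm_num
  have e3 : (k : ℝ) ^ (3 / 4 : ℝ) ≤ (1 / 25) * (k / Real.log k) := by
    rw [← mul_div_assoc, le_div_iff₀ hL]
    exact h1
  calc (3 / 100) * v * (((k : ℝ) / 63 / v + 1) / Real.log ((lev k : ℝ) + 1) + (lev k : ℝ) ^ 2) ≤
      (3 / 100) * v * (((k : ℝ) / 63 / v + 1) / (Real.log k / 8) + (lev k : ℝ) ^ 2) := by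
        gcongr
    _ = (3 / 100) * ((8 * (k / 63 + v)) / Real.log k + v * (lev k : ℝ) ^ 2) := by
        field_simp
    _ ≤ (3 / 100) * ((8 * (k / 63 + k / 1000)) / Real.log k + (1 / 25) * (k / Real.log k)) := by
        refine mul_le_mul_of_nonneg_left (add_le_add ?_ (e2.trans e3)) (by norm_num)
        gcongr
    _ = (3 / 100) * (8 * (1 / 63 + 1 / 1000) + 1 / 25) * (k / Real.log k) := by ring
    _ ≤ (1 / 150) * (k / Real.log k) := by
        have : 0 < k / Real.log k := by positivity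
        nlinarith

end Pool.Agent.ESel
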