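import Mathlib
import Pool.Agent.ESel.FastBlock
import Pool.Agent.ESel.Slow

/-!
The range `n ≥ k^{3/2}`, `log n ≤ (1/5) log k log log k`.
-/

namespace Pool.Agent.ESel

open Finset Nat

open Pool.Agent.ExpSum

/-- majorant of the indicator of `{t : {t} < 1/64}` -/
noncomputable def maj (t : ℝ) : ℝ :=
  1 / 1024 * ‖∑ j ∈ range 64, e (j * (t - 1 / 128))‖ ^ 2

theorem maj_nonneg (t : ℝ) : 0 ≤ maj t := by unfold maj; positivity

theorem e_int (m : ℤ) : e (m : ℝ) = 1 := by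
  unfold e
  rw [Complex.exp_eq_one_iff]
  exact ⟨m, by push_cast; ring⟩

theorem one_le_maj {t : ℝ} {m : ℤ} (h0 : 0 ≤ t - m) (h1 : t - m < 1 / 64) : 1 ≤ maj t := by
  obtain ⟨th, hth⟩ : ∃ th, th = t - m - 1 / 128 := ⟨_, rfl⟩
  have habs : |th| ≤ 1 / 128 := by rw [abs_le]; constructor <;> linarith
  have h2 : ∑ j ∈ range 64, e (j * (t - 1 / 128)) = ∑ j ∈ range 64, e (j * th) := by
    refine Finset.sum_congr rfl fun j _ => ?_
    have : (j : ℝ) * (t - 1 / 128) = j * th + ((j * m : ℤ) : ℝ) := by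
      rw [hth]; push_cast; ring
    rw [this, e_add, e_int, mul_one]
  have h3 : ‖∑ j ∈ range 64, e (j * th)‖ = ‖∑ j ∈ range 64, e ((j - 63 / 2) * th)‖ := by
    have : ∑ j ∈ range 64, e (j * th) = e (63 / 2 * th) * ∑ j ∈ range 64, e ((j - 63 / 2) * th) := by
      rw [Finset.mul_sum]
      refine Finset.sum_congr rfl fun j _ => ?_
      rw [← e_add]
      congr 1
      ring
    rw [this, norm_mul, norm_e, one_mul]
  have h4 : (32 : ℝ) ≤ ‖∑ j ∈ range 64, e ((j - 63 / 2) * th)‖ := by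
    refine le_trans ?_ (Complex.re_le_norm _)
    rw [Complex.re_sum]
    have hcos : ∀ j ∈ range 64, 1 - 4 * |(j : ℝ) - 63 / 2| * (1 / 128) ≤
        (e (((j : ℝ) - 63 / 2) * th)).re := by
      intro j hj
      rw [mem_range] at hj
      have hre : (e (((j : ℝ) - 63 / 2) * th)).re = Real.cos (2 * Real.pi * (((j : ℝ) - 63 / 2) * th)) := by
        unfold e
        rw [mul_comm, Complex.exp_ofReal_mul_I_re]
      rw [hre, ← Real.cos_abs]
      have hj64 : (j : ℝ) ≤ 63 := by exact_mod_cast (by omega : j ≤ 63)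
      have hj0 : (0 : ℝ) ≤ j := Nat.cast_nonneg j
      have hja : |(j : ℝ) - 63 / 2| ≤ 63 / 2 := by rw [abs_le]; constructor <;> linarith
      have hpi := Real.pi_pos
      have habs2 : |2 * Real.pi * (((j : ℝ) - 63 / 2) * th)| = 2 * Real.pi * (|(j : ℝ) - 63 / 2| * |th|) := by
        rw [abs_mul, abs_mul, abs_mul, abs_of_pos hpi, abs_two]
      rw [habs2]
      have hprod : |(j : ℝ) - 63 / 2| * |th| ≤ 63 / 2 * (1 / 128) := by gcongr
      have hle : 2 * Real.pi * (|(j : ℝ) - 63 / 2| * |th|) ≤ Real.pi / 2 := by nlinarith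
      have h5 := Real.one_sub_mul_le_cos (show 0 ≤ 2 * Real.pi * (|(j : ℝ) - 63 / 2| * |th|) by
        positivity) hle
      refine le_trans ?_ h5
      have h6 : 2 / Real.pi * (2 * Real.pi * (|(j : ℝ) - 63 / 2| * |th|)) =
          4 * (|(j : ℝ) - 63 / 2| * |th|) := by field_simp; ring
      rw [h6]
      have : |(j : ℝ) - 63 / 2| * |th| ≤ |(j : ℝ) - 63 / 2| * (1 / 128) := by gcongr
      linarith
    refine le_trans ?_ (Finset.sum_le_sum hcos)
    norm_num [Finset.sum_range_succ, abs_of_nonneg, abs_of_neg]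
  unfold maj
  rw [h2, h3]
  nlinarith

theorem maj_expand (t : ℝ) : (maj t : ℂ) = 1 / 1024 *
    ∑ j ∈ range 64, ∑ j' ∈ range 64, e (((j : ℝ) - j') * (t - 1 / 128)) := by
  unfold maj
  push_cast
  rw [← Complex.ofReal_pow, ← Complex.normSq_eq_norm_sq, ← Complex.mul_conj, map_sum,
    Finset.sum_mul_sum]
  congr 1
  refine Finset.sum_congr rfl fun j _ => Finset.sum_congr rfl fun j' _ => ?_
  rw [← e_sub]
  congr 1
  ring

/-- frequencies to weights -/
theorem maj_sum (J : Finset ℕ) (F : ℕ → ℝ) {E : ℝ}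
    (hE : ∀ h : ℤ, 1 ≤ |(h : ℝ)| → |(h : ℝ)| ≤ 64 → ‖∑ x ∈ J, e (h * F x)‖ ≤ E) (hE0 : 0 ≤ E) :
    |∑ x ∈ J, maj (F x) - (J.card : ℝ) / 16| ≤ 4 * E := by
  have h1 : ((∑ x ∈ J, maj (F x) - (J.card : ℝ) / 16 : ℝ) : ℂ) = 1 / 1024 *
      ∑ j ∈ range 64, ∑ j' ∈ range 64, (if j = j' then 0 else
        e (-(((j : ℝ) - j') / 128)) * ∑ x ∈ J, e ((((j : ℤ) - (j' : ℤ) : ℤ) : ℝ) * F x)) := by
    push_cast
    simp_rw [maj_expand]
    rw [← Finset.mul_sum, Finset.sum_comm]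
    have h2 : ∀ j ∈ range 64, ∑ x ∈ J, ∑ j' ∈ range 64, e (((j : ℝ) - j') * (F x - 1 / 128)) =
        (J.card : ℂ) + ∑ j' ∈ range 64, (if j = j' then 0 else
        e (-(((j : ℝ) - j') / 128)) * ∑ x ∈ J, e (((j : ℝ) - (j' : ℝ)) * F x)) := by
      intro j hj
      rw [Finset.sum_comm]
      have h3 : ∀ j' ∈ range 64, ∑ x ∈ J, e (((j : ℝ) - j') * (F x - 1 / 128)) =
          (if j = j' then (J.card : ℂ) else 0) + (if j = j' then 0 else
        e (-(((j : ℝ) - j') / 128)) * ∑ x ∈ J, e (((j : ℝ) - (j' : ℝ)) * F x)) := by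
        intro j' _
        split_ifs with h
        · subst h
          simp [e_zero]
        · rw [zero_add, Finset.mul_sum]
          refine Finset.sum_congr rfl fun x _ => ?_
          rw [← e_add]
          congr 1
          ring
      rw [Finset.sum_congr rfl h3, Finset.sum_add_distrib, Finset.sum_ite_eq]
      rw [if_pos hj]
    rw [Finset.sum_congr rfl h2, Finset.sum_add_distrib, Finset.sum_const, card_range]
    simp only [nsmul_eq_mul]
    push_cast
    ring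
  have h4 : ‖((∑ x ∈ J, maj (F x) - (J.card : ℝ) / 16 : ℝ) : ℂ)‖ ≤ 4 * E := by
    rw [h1, norm_mul]
    have h5 : ‖∑ j ∈ range 64, ∑ j' ∈ range 64, (if j = j' then 0 else
        e (-(((j : ℝ) - j') / 128)) * ∑ x ∈ J, e ((((j : ℤ) - (j' : ℤ) : ℤ) : ℝ) * F x))‖ ≤
        ∑ j ∈ range 64, ∑ j' ∈ range 64, E := by
      refine (norm_sum_le _ _).trans (Finset.sum_le_sum fun j hj => ?_)
      refine (norm_sum_le _ _).trans (Finset.sum_le_sum fun j' hj' => ?_)
      rw [mem_range] at hj hj'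
      split_ifs with h
      · simpa using hE0
      · rw [norm_mul, norm_e, one_mul]
        apply hE
        · have : (1 : ℤ) ≤ |(j : ℤ) - (j' : ℤ)| := Int.one_le_abs (by omega)
          exact_mod_cast this
        · have : |(j : ℤ) - (j' : ℤ)| ≤ 64 := by rw [abs_le]; omega
          exact_mod_cast this
    simp only [Finset.sum_const, card_range, nsmul_eq_mul] at h5
    norm_num at h5 ⊢
    linarith
  rwa [Complex.norm_real, Real.norm_eq_abs] at h4

/-- type I sums of frequencies -/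
theorem freq_sum {n k e' K : ℕ} (hk : 2 ≤ k) {L : ℝ} (hL : L = Real.log k)
    (hR1 : L / 2 ≤ Real.log (n / k)) (hR2 : 6 * Real.log (n / k) ≤ (2 * K + 3) * L)
    (he : 1 ≤ e') (he2 : Real.log e' ≤ L / 4)
    (C1 : 4 ^ (2 ^ K) * (1 + L) ^ K * 2 ^ (K + 2) ≤ Real.exp (L / (4 * (2 * K + 3))))
    (C2 : 128 * ((K : ℝ) + 3) ^ (K + 2) ≤ k / 2)
    (C3 : 256 * ((K : ℝ) + 2) ^ (K + 1) * 2 ^ (K + 2) ≤ Real.exp (L / 4))
    (h : ℤ) (hh1 : 1 ≤ |(h : ℝ)|) (hh2 : |(h : ℝ)| ≤ 64) :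
    ‖∑ x ∈ (Ioc (64 * k / 65) k).filter (fun x => e' ∣ x), e (h * (n / x))‖ ≤
      2 * (k / e') * sav K L := by
  obtain ⟨N, hN1, hN2, hN⟩ := fast_block hk hL hR1 hR2 he he2 C1 C2 C3
  have he0 : 0 < e' := by omega
  have her : (0 : ℝ) < e' := by exact_mod_cast he0
  have hNr : (1 : ℝ) ≤ N := by exact_mod_cast hN1
  have hs := sav_pos K L
  have e1 : ∑ x ∈ (Ioc (64 * k / 65) k).filter (fun x => e' ∣ x), e (h * (n / x)) =
      ∑ y ∈ Ioc (64 * k / 65 / e') (k / e'), e (h * (n / ((e' * y : ℕ) : ℝ))) := by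
    symm
    refine Finset.sum_bij (fun y _ => e' * y) ?_ ?_ ?_ ?_
    · intro y hy
      rw [mem_Ioc, Nat.div_lt_iff_lt_mul he0, Nat.le_div_iff_mul_le he0] at hy
      rw [mem_filter, mem_Ioc, mul_comm e' y]
      exact ⟨hy, dvd_mul_left e' y⟩
    · intro a _ b _ hab
      exact Nat.eq_of_mul_eq_mul_left he0 hab
    · intro x hx
      rw [mem_filter, mem_Ioc] at hx
      obtain ⟨y, rfl⟩ := hx.2
      refine ⟨y, ?_, rfl⟩
      rw [mem_Ioc, Nat.div_lt_iff_lt_mul he0, Nat.le_div_iff_mul_le he0, mul_comm y e']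
      exact hx.1
    · intro y _; rfl
  rw [e1]
  have hsb := sum_blocks (F := fun y => e (h * (n / ((e' * y : ℕ) : ℝ)))) hN1
    (B := N * sav K L) (by positivity) (k / e') _ (64 * k / 65 / e') le_rfl (by
      intro y0 hy0 hy0' M hM
      have h1 : 64 * k / 65 < e' * y0 := by
        rw [Nat.div_lt_iff_lt_mul he0] at hy0
        rw [mul_comm e' y0]; exact hy0
      have h2 : e' * y0 ≤ k := by
        rw [Nat.le_div_iff_mul_le he0] at hy0'
        rw [mul_comm e' y0]; exact hy0'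
      have h1' : k ≤ 2 * (e' * y0) := by omega
      have h1'' : (k : ℝ) / 2 ≤ ((e' * y0 : ℕ) : ℝ) := by
        have : (k : ℝ) ≤ 2 * ((e' * y0 : ℕ) : ℝ) := by exact_mod_cast h1'
        linarith
      have h3 := hN ((e' * y0 : ℕ) : ℝ) h1'' (by exact_mod_cast h2) h hh1 hh2 M hM
      refine le_trans (le_of_eq ?_) h3
      congr 1
      refine Finset.sum_congr rfl fun t _ => ?_
      congr 3
      push_cast
      ring)
  refine hsb.trans ?_
  have hcard : (((k / e' - 64 * k / 65 / e' : ℕ)) : ℝ) ≤ (k : ℝ) / e' := by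
    calc (((k / e' - 64 * k / 65 / e' : ℕ)) : ℝ) ≤ ((k / e' : ℕ) : ℝ) := by
          exact_mod_cast Nat.sub_le _ _
      _ ≤ (k : ℝ) / e' := Nat.cast_div_le
  have hNk : (N : ℝ) ≤ k / e' := by rw [le_div_iff₀ her]; exact hN2
  calc ((((k / e' - 64 * k / 65 / e' : ℕ)) : ℝ) / N + 1) * (N * sav K L) =
      ((((k / e' - 64 * k / 65 / e' : ℕ)) : ℝ) + N) * sav K L := by field_simp
    _ ≤ ((k : ℝ) / e' + k / e') * sav K L := by gcongr
    _ = _ := by ring

theorem card_goodP_fast {n k K : ℕ} (hk : 1000 ≤ k) {L : ℝ} (hL : L = Real.log k)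
    (hR1 : L / 2 ≤ Real.log (n / k)) (hR2 : 6 * Real.log (n / k) ≤ (2 * K + 3) * L)
    (C1 : 4 ^ (2 ^ K) * (1 + L) ^ K * 2 ^ (K + 2) ≤ Real.exp (L / (4 * (2 * K + 3))))
    (C2 : 128 * ((K : ℝ) + 3) ^ (K + 2) ≤ k / 2)
    (C3 : 256 * ((K : ℝ) + 2) ^ (K + 1) * 2 ^ (K + 2) ≤ Real.exp (L / 4)) :
    ((goodP n k).card : ℝ) ≤ ((k : ℝ) / 65 + 1) / 16 / (L / 8) + (k : ℝ) ^ (1 / 4 : ℝ) +
      8 * k * sav K L * (1 + L) ^ 3 := by
  have hkr : (1000 : ℝ) ≤ k := by exact_mod_cast hk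
  have hk0 : (0 : ℝ) < k := by linarith
  have hLpos : 0 < L := by rw [hL]; exact Real.log_pos (by linarith)
  have hs := sav_pos K L
  set D := lev k with hD
  have hD1 : 1 ≤ D := lev_pos (by omega)
  have hD2 : (D : ℝ) ^ 2 ≤ (k : ℝ) ^ (1 / 4 : ℝ) := lev_sq_le
  have hDle : D ≤ 64 * k / 65 := lev_le' hk
  have hDr : (1 : ℝ) ≤ D := by exact_mod_cast hD1
  have hlogD : Real.log D ≤ L := by
    rw [hL]
    refine Real.log_le_log (by linarith) ?_
    exact_mod_cast hDle.trans (by omega)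
  have hlogD1 : L / 8 ≤ Real.log ((D : ℝ) + 1) := by
    rw [hL]; exact log_lev (by omega)
  set a := 64 * k / 65 with ha
  have hak : a ≤ k := by omega
  have hXle : ((k : ℝ) - a) ≤ k / 65 + 1 := by
    have : 64 * k < 65 * (a + 1) := by omega
    have h1 : (64 : ℝ) * k < 65 * ((a : ℝ) + 1) := by exact_mod_cast this
    linarith
  have hXnn : 0 ≤ (k : ℝ) - a := by
    have : (a : ℝ) ≤ k := by exact_mod_cast hak
    linarith
  have hsel := selberg hD1 (Ioc a k) (fun x => maj ((n : ℝ) / x)) (fun x _ => maj_nonneg _)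
    (X := ((k : ℝ) - a) / 16) (by positivity) (fun e' => 1 + 8 * k * sav K L * (1 / (e' : ℝ))) (by
      intro e' he1 he2
      have her : (0 : ℝ) < e' := by exact_mod_cast he1
      have he4 : Real.log e' ≤ L / 4 := by
        have h1 : (e' : ℝ) ≤ (k : ℝ) ^ (1 / 4 : ℝ) := by
          refine le_trans ?_ hD2
          rw [pow_two]
          exact_mod_cast he2
        calc Real.log e' ≤ Real.log ((k : ℝ) ^ (1 / 4 : ℝ)) := Real.log_le_log her h1
          _ = L / 4 := by rw [Real.log_rpow hk0, ← hL]; ring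
      have h1 := maj_sum ((Ioc a k).filter fun x => e' ∣ x) (fun x => (n : ℝ) / x)
        (E := 2 * (k / e') * sav K L) (fun h hh1 hh2 =>
          freq_sum (by omega) hL hR1 hR2 he1 he4 C1 C2 C3 h hh1 hh2) (by positivity)
      have h2 := card_mult a k e' hak (by omega)
      have h3 : ∑ x ∈ (Ioc a k).filter (fun x => e' ∣ x), maj ((n : ℝ) / x) -
          ((k : ℝ) - a) / 16 / e' = (∑ x ∈ (Ioc a k).filter (fun x => e' ∣ x), maj ((n : ℝ) / x) -
          (((Ioc a k).filter fun x => e' ∣ x).card : ℝ) / 16) +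
          1 / 16 * ((((Ioc a k).filter fun x => e' ∣ x).card : ℝ) - ((k : ℝ) - a) / e') := by
        ring
      rw [h3]
      refine (abs_add_le _ _).trans ?_
      rw [abs_mul]
      have h4 : |(1 / 16 : ℝ)| = 1 / 16 := abs_of_pos (by norm_num)
      rw [h4]
      have h5 : 4 * (2 * ((k : ℝ) / e') * sav K L) = 8 * k * sav K L * (1 / (e' : ℝ)) := by
        field_simp; ring
      rw [h5] at h1
      linarith)
  have hcard : ((goodP n k).card : ℝ) ≤
      ∑ x ∈ (Ioc a k).filter (fun x => x.Prime ∧ D < x), maj ((n : ℝ) / x) := by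
    have h1 : goodP n k ⊆ (Ioc a k).filter (fun x => x.Prime ∧ D < x) := by
      intro p hp
      unfold goodP at hp
      rw [mem_filter, mem_Ioc] at hp
      rw [mem_filter, mem_Ioc]
      exact ⟨hp.1, hp.2.1, lt_of_le_of_lt hDle hp.1.1⟩
    calc ((goodP n k).card : ℝ) = ∑ x ∈ goodP n k, (1 : ℝ) := by simp
      _ ≤ ∑ x ∈ goodP n k, maj ((n : ℝ) / x) := by
          refine Finset.sum_le_sum fun p hp => ?_
          unfold goodP at hp
          rw [mem_filter, mem_Ioc] at hp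
          obtain ⟨⟨h2, h3⟩, h4, h5⟩ := hp
          have hp0 : (0 : ℝ) < p := by exact_mod_cast h4.pos
          have hdm : (n : ℝ) = p * ((n / p : ℕ) : ℝ) + ((n % p : ℕ) : ℝ) := by
            exact_mod_cast (Nat.div_add_mod n p).symm
          have h6 : (n : ℝ) / p - (((n / p : ℕ) : ℤ) : ℝ) = ((n % p : ℕ) : ℝ) / p := by
            rw [eq_div_iff hp0.ne', sub_mul, div_mul_cancel₀ _ hp0.ne', Int.cast_natCast]
            linarith
          refine one_le_maj (m := ((n / p : ℕ) : ℤ)) ?_ ?_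
          · rw [h6]; positivity
          · rw [h6, div_lt_iff₀ hp0]
            have : (64 : ℝ) * ((n % p : ℕ) : ℝ) < p := by exact_mod_cast h5
            linarith
      _ ≤ _ := Finset.sum_le_sum_of_subset_of_nonneg h1 fun x _ _ => maj_nonneg _
  have hRsum : ∑ d ∈ Icc 1 D, ∑ e' ∈ Icc 1 D, (1 + 8 * (k : ℝ) * sav K L *
      (1 / ((Nat.lcm d e' : ℕ) : ℝ))) ≤ (k : ℝ) ^ (1 / 4 : ℝ) + 8 * k * sav K L * (1 + L) ^ 3 := by
    have h1 : ∑ d ∈ Icc 1 D, ∑ e' ∈ Icc 1 D, (1 + 8 * (k : ℝ) * sav K L *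
        (1 / ((Nat.lcm d e' : ℕ) : ℝ))) = (D : ℝ) ^ 2 + 8 * k * sav K L *
        ∑ d ∈ Icc 1 D, ∑ e' ∈ Icc 1 D, (1 / ((Nat.lcm d e' : ℕ) : ℝ)) := by
      simp only [Finset.sum_add_distrib, Finset.sum_const, Nat.card_Icc, Nat.add_sub_cancel,
        nsmul_eq_mul, mul_one, ← Finset.mul_sum]
      ring
    rw [h1]
    have h2 := sum_inv_lcm_le D
    have h3 : (1 + Real.log D) ^ 3 ≤ (1 + L) ^ 3 := by
      have : 0 ≤ Real.log D := Real.log_nonneg hDr
      gcongr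
    have h4 : ∑ d ∈ Icc 1 D, ∑ e' ∈ Icc 1 D, (1 / ((Nat.lcm d e' : ℕ) : ℝ)) ≤ (1 + L) ^ 3 :=
      h2.trans h3
    gcongr
  calc ((goodP n k).card : ℝ) ≤ _ := hcard
    _ ≤ _ := hsel
    _ ≤ ((k : ℝ) / 65 + 1) / 16 / (L / 8) + ((k : ℝ) ^ (1 / 4 : ℝ) +
        8 * k * sav K L * (1 + L) ^ 3) := by
        refine add_le_add ?_ hRsum
        gcongr
    _ = _ := by ring

end Pool.Agent.ESel
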