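import Mathlib
import Pool.Agent.ESel.FastBlock

/-!
The conditions on the parameters hold for large `L`.
-/

namespace Pool.Agent.ESel

open Filter

theorem master : ∀ᶠ L : ℝ in atTop, 1 ≤ Real.log L ∧ 1000 * (Real.log L + 3) ^ 4 ≤ √L := by
  have h2 := (isLittleO_log_rpow_atTop (show (0 : ℝ) < 1 / 8 by norm_num)).bound
    (show (0 : ℝ) < 1 / 24 by norm_num)
  filter_upwards [h2, Real.tendsto_log_atTop.eventually_ge_atTop 1, eventually_gt_atTop 1]
    with L h hl hL
  refine ⟨hl, ?_⟩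
  have hL0 : 0 < L := by linarith
  rw [Real.norm_of_nonneg (by linarith), Real.norm_of_nonneg (by positivity)] at h
  have h3 : Real.log L + 3 ≤ 1 / 6 * L ^ (1 / 8 : ℝ) := by linarith
  have h4 : (L ^ (1 / 8 : ℝ)) ^ 4 = √L := by
    rw [← Real.rpow_natCast, ← Real.rpow_mul hL0.le, Real.sqrt_eq_rpow]
    norm_num
  calc 1000 * (Real.log L + 3) ^ 4 ≤ 1000 * (1 / 6 * L ^ (1 / 8 : ℝ)) ^ 4 := by
        gcongr
    _ = 1000 / 1296 * (L ^ (1 / 8 : ℝ)) ^ 4 := by ring
    _ = 1000 / 1296 * √L := by rw [h4]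
    _ ≤ √L := by
        have := Real.sqrt_nonneg L
        linarith

theorem params {L : ℝ} (hl : 1 ≤ Real.log L) (hM : 1000 * (Real.log L + 3) ^ 4 ≤ √L) {K : ℕ}
    (hK : (2 : ℝ) ^ K ≤ √L) :
    (4 ^ (2 ^ K) * (1 + L) ^ K * 2 ^ (K + 2) ≤ Real.exp (L / (4 * (2 * K + 3)))) ∧
    (128 * ((K : ℝ) + 3) ^ (K + 2) ≤ Real.exp L / 2) ∧
    (256 * ((K : ℝ) + 2) ^ (K + 1) * 2 ^ (K + 2) ≤ Real.exp (L / 4)) ∧
    (8 * sav K L * (1 + L) ^ 3 * L ≤ 1 / 2000) := by
  obtain ⟨l, hl'⟩ : ∃ l, l = Real.log L := ⟨_, rfl⟩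
  rw [← hl'] at hl hM
  obtain ⟨Q, hQ⟩ : ∃ Q, Q = √L := ⟨_, rfl⟩
  rw [← hQ] at hM hK
  have hL0 : 0 < L := by
    by_contra hcon
    push Not at hcon
    have : √L = 0 := Real.sqrt_eq_zero_of_nonpos hcon
    rw [hQ, this] at hM
    have : 0 < (l + 3) ^ 4 := by positivity
    linarith
  have hQQ : Q * Q = L := by rw [hQ]; exact Real.mul_self_sqrt hL0.le
  have hexpl : Real.exp l = L := by rw [hl']; exact Real.exp_log hL0
  obtain ⟨u, hu⟩ : ∃ u, u = l + 3 := ⟨_, rfl⟩
  rw [← hu] at hM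
  have hu4 : 4 ≤ u := by linarith
  have hu1 : 1 ≤ u := by linarith
  have hu0 : 0 < u := by linarith
  have hu2 : u ≤ u ^ 2 := by nlinarith
  have hu3 : u ^ 2 ≤ u ^ 3 := pow_le_pow_right₀ hu1 (by norm_num)
  have hu34 : u ^ 3 ≤ u ^ 4 := pow_le_pow_right₀ hu1 (by norm_num)
  have hQ0 : 0 < Q := by nlinarith
  have hQ1 : 1000 ≤ Q := by nlinarith
  have hL1 : 1 ≤ L := by nlinarith
  have hQL : Q ≤ L := by nlinarith
  have hK0 : (0 : ℝ) ≤ K := Nat.cast_nonneg K
  have hlog2a : (1 : ℝ) / 2 ≤ Real.log 2 := by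
    have := Real.log_two_gt_d9; linarith
  have hlog2b : Real.log 2 ≤ 7 / 10 := by
    have := Real.log_two_lt_d9; linarith
  have hKl : (K : ℝ) ≤ l := by
    have h1 := Real.log_le_log (by positivity) hK
    rw [Real.log_pow] at h1
    have h2 : Real.log Q = l / 2 := by
      rw [hQ, Real.log_sqrt hL0.le, hl']
    rw [h2] at h1
    have h3 : (K : ℝ) * (1 / 2) ≤ K * Real.log 2 := mul_le_mul_of_nonneg_left hlog2a hK0
    linarith
  have hKu : (K : ℝ) + 3 ≤ u := by linarith
  have hlog1L : Real.log (1 + L) ≤ l + 1 := by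
    have h1 : 1 + L ≤ Real.exp 1 * L := by
      have := Real.exp_one_gt_d9
      nlinarith
    calc Real.log (1 + L) ≤ Real.log (Real.exp 1 * L) := Real.log_le_log (by linarith) h1
      _ = l + 1 := by rw [Real.log_mul (Real.exp_pos _).ne' hL0.ne', Real.log_exp, hl']; ring
  have hlogK3 : Real.log ((K : ℝ) + 3) ≤ u := by
    have := Real.log_le_sub_one_of_pos (show (0 : ℝ) < (K : ℝ) + 3 by positivity)
    linarith
  have hlogK3' : 0 ≤ Real.log ((K : ℝ) + 3) := Real.log_nonneg (by linarith)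
  have hlogK2 : Real.log ((K : ℝ) + 2) ≤ u := by
    have := Real.log_le_sub_one_of_pos (show (0 : ℝ) < (K : ℝ) + 2 by positivity)
    linarith
  have hlogK2' : 0 ≤ Real.log ((K : ℝ) + 2) := Real.log_nonneg (by linarith)
  have hlog256 : Real.log 256 ≤ 6 := by
    have : (256 : ℝ) = 2 ^ 8 := by norm_num
    rw [this, Real.log_pow]
    push_cast
    linarith
  have hpowK3 : ((K : ℝ) + 3) ^ (K + 2) ≤ Real.exp (u ^ 2) := by
    rw [← Real.exp_log (show (0 : ℝ) < ((K : ℝ) + 3) ^ (K + 2) by positivity), Real.log_pow]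
    refine Real.exp_le_exp.mpr ?_
    push_cast
    calc ((K : ℝ) + 2) * Real.log ((K : ℝ) + 3) ≤ u * u := by gcongr; linarith
      _ = u ^ 2 := by ring
  have hpowK2 : ((K : ℝ) + 2) ^ (K + 1) ≤ Real.exp (u ^ 2) := by
    rw [← Real.exp_log (show (0 : ℝ) < ((K : ℝ) + 2) ^ (K + 1) by positivity), Real.log_pow]
    refine Real.exp_le_exp.mpr ?_
    push_cast
    calc ((K : ℝ) + 1) * Real.log ((K : ℝ) + 2) ≤ u * u := by gcongr; linarith
      _ = u ^ 2 := by ring
  have hpow2 : ∀ j : ℕ, (j : ℝ) ≤ u → (2 : ℝ) ^ j ≤ Real.exp u := by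
    intro j hj
    rw [← Real.exp_log (show (0 : ℝ) < (2 : ℝ) ^ j by positivity), Real.log_pow]
    refine Real.exp_le_exp.mpr ?_
    have : (j : ℝ) * Real.log 2 ≤ j * 1 := by
      refine mul_le_mul_of_nonneg_left (by linarith) (Nat.cast_nonneg j)
    linarith
  have h256 : (256 : ℝ) ≤ Real.exp 6 := by
    rw [← Real.exp_log (show (0 : ℝ) < 256 by norm_num)]
    exact Real.exp_le_exp.mpr hlog256
  have hg : 2 * (K : ℝ) + 3 ≤ 2 * u := by linarith
  have hgpos : (0 : ℝ) < 2 * (K : ℝ) + 3 := by positivity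
  have hLbig : 1000 * u ^ 4 * Q ≤ L := by rw [← hQQ]; gcongr
  refine ⟨?_, ?_, ?_, ?_⟩
  · -- C1
    have hLHS : (0 : ℝ) < 4 ^ (2 ^ K) * (1 + L) ^ K * 2 ^ (K + 2) := by positivity
    rw [← Real.exp_log hLHS]
    refine Real.exp_le_exp.mpr ?_
    rw [Real.log_mul (by positivity) (by positivity), Real.log_mul (by positivity) (by positivity),
      Real.log_pow, Real.log_pow, Real.log_pow]
    push_cast
    have h4 : Real.log 4 ≤ 14 / 10 := by
      have : (4 : ℝ) = 2 ^ 2 := by norm_num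
      rw [this, Real.log_pow]; push_cast; linarith
    have h5 : (2 : ℝ) ^ K * Real.log 4 ≤ Q * 2 := by
      have : 0 ≤ Real.log 4 := Real.log_nonneg (by norm_num)
      calc (2 : ℝ) ^ K * Real.log 4 ≤ Q * (14 / 10) := by gcongr
        _ ≤ Q * 2 := by linarith
    have h6 : (K : ℝ) * Real.log (1 + L) ≤ u * u := by
      have : 0 ≤ Real.log (1 + L) := Real.log_nonneg (by linarith)
      have h8 : Real.log (1 + L) ≤ u := by linarith
      have h9 : (K : ℝ) ≤ u := by linarith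
      exact mul_le_mul h9 h8 this hu0.le
    have h7 : ((K : ℝ) + 2) * Real.log 2 ≤ u := by
      calc ((K : ℝ) + 2) * Real.log 2 ≤ ((K : ℝ) + 2) * 1 := by
            refine mul_le_mul_of_nonneg_left (by linarith) (by positivity)
        _ ≤ u := by linarith
    have h8 : Q * 2 + u * u + u ≤ 3 * Q := by nlinarith
    have h9 : 3 * Q ≤ L / (4 * (2 * K + 3)) := by
      rw [le_div_iff₀ (by positivity)]
      calc 3 * Q * (4 * (2 * (K : ℝ) + 3)) ≤ 3 * Q * (4 * (2 * u)) := by gcongr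
        _ = 24 * u * Q := by ring
        _ ≤ 1000 * u ^ 4 * Q := by
            have : 24 * u ≤ 1000 * u ^ 4 := by nlinarith
            gcongr
        _ ≤ L := hLbig
    linarith
  · -- C2
    have h1 : 128 * ((K : ℝ) + 3) ^ (K + 2) ≤ (256 * Real.exp (u ^ 2)) / 2 := by
      have : 128 * ((K : ℝ) + 3) ^ (K + 2) ≤ 128 * Real.exp (u ^ 2) := by gcongr
      linarith
    have h2 : 256 * Real.exp (u ^ 2) ≤ Real.exp L := by
      calc 256 * Real.exp (u ^ 2) ≤ Real.exp 6 * Real.exp (u ^ 2) := by gcongr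
        _ = Real.exp (6 + u ^ 2) := by rw [Real.exp_add]
        _ ≤ Real.exp L := by
            refine Real.exp_le_exp.mpr ?_
            nlinarith
    linarith
  · -- C3
    calc 256 * ((K : ℝ) + 2) ^ (K + 1) * 2 ^ (K + 2) ≤
        Real.exp 6 * Real.exp (u ^ 2) * Real.exp u := by
          have := hpow2 (K + 2) (by push_cast; linarith)
          gcongr
      _ = Real.exp (6 + u ^ 2 + u) := by rw [Real.exp_add, Real.exp_add]
      _ ≤ Real.exp (L / 4) := by
          refine Real.exp_le_exp.mpr ?_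
          nlinarith
  · -- C4
    have hb1 : Real.exp (-(L / (4 * (2 * K + 3) * 2 ^ K))) ≤ Real.exp (-(100 * u ^ 3)) := by
      refine Real.exp_le_exp.mpr (neg_le_neg ?_)
      rw [le_div_iff₀ (by positivity)]
      calc 100 * u ^ 3 * (4 * (2 * (K : ℝ) + 3) * 2 ^ K) ≤ 100 * u ^ 3 * (4 * (2 * u) * Q) := by
            gcongr
        _ = 800 * u ^ 4 * Q := by ring
        _ ≤ 1000 * u ^ 4 * Q := by gcongr; norm_num
        _ ≤ L := hLbig
    have hb2 : 2 * Real.pi * (128 * ((K : ℝ) + 3) ^ (K + 2) * 2 ^ (K + 3) *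
        Real.exp (-(L / (2 * (2 * K + 3))))) ≤ Real.exp (-(100 * u ^ 3)) := by
      have h1 : 2 * Real.pi * (128 * ((K : ℝ) + 3) ^ (K + 2) * 2 ^ (K + 3) *
          Real.exp (-(L / (2 * (2 * K + 3))))) ≤ (256 * 4) * (Real.exp (u ^ 2) * Real.exp u *
          Real.exp (-(L / (2 * (2 * K + 3))))) := by
        have h3 := hpow2 (K + 3) (by push_cast; linarith)
        have h4 := Real.pi_lt_d2
        have h5 := Real.pi_pos
        calc 2 * Real.pi * (128 * ((K : ℝ) + 3) ^ (K + 2) * 2 ^ (K + 3) *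
            Real.exp (-(L / (2 * (2 * K + 3))))) =
            (256 * Real.pi) * (((K : ℝ) + 3) ^ (K + 2) * 2 ^ (K + 3) *
              Real.exp (-(L / (2 * (2 * K + 3))))) := by ring
          _ ≤ (256 * 4) * (Real.exp (u ^ 2) * Real.exp u *
              Real.exp (-(L / (2 * (2 * K + 3))))) := by
              gcongr
              linarith
      have h2 : (256 * 4 : ℝ) ≤ Real.exp 12 := by
        have : Real.exp 12 = Real.exp 6 * Real.exp 6 := by rw [← Real.exp_add]; norm_num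
        rw [this]
        nlinarith
      refine h1.trans ?_
      calc (256 * 4) * (Real.exp (u ^ 2) * Real.exp u * Real.exp (-(L / (2 * (2 * K + 3))))) ≤
          Real.exp 12 * (Real.exp (u ^ 2) * Real.exp u * Real.exp (-(L / (2 * (2 * K + 3))))) := by
            gcongr
        _ = Real.exp (12 + (u ^ 2 + u + -(L / (2 * (2 * K + 3))))) := by
            rw [← Real.exp_add, ← Real.exp_add, ← Real.exp_add]
        _ ≤ Real.exp (-(100 * u ^ 3)) := by
            refine Real.exp_le_exp.mpr ?_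
            have h3 : 200 * u ^ 3 ≤ L / (2 * (2 * K + 3)) := by
              rw [le_div_iff₀ (by positivity)]
              calc 200 * u ^ 3 * (2 * (2 * (K : ℝ) + 3)) ≤ 200 * u ^ 3 * (2 * (2 * u)) := by gcongr
                _ = 800 * u ^ 4 * 1 := by ring
                _ ≤ 1000 * u ^ 4 * Q := by gcongr <;> linarith
                _ ≤ L := hLbig
            nlinarith
    have hsav : sav K L ≤ 2 * Real.exp (-(100 * u ^ 3)) := by
      unfold sav; linarith
    have hpowL : (1 + L) ^ 3 * L ≤ Real.exp (4 * u) := by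
      have h1 : 1 + L ≤ Real.exp u := by
        rw [← Real.exp_log (show 0 < 1 + L by linarith)]
        refine Real.exp_le_exp.mpr (by linarith)
      calc (1 + L) ^ 3 * L ≤ (1 + L) ^ 3 * (1 + L) := by
            refine mul_le_mul_of_nonneg_left (by linarith) (by positivity)
        _ = (1 + L) ^ 4 := by ring
        _ ≤ (Real.exp u) ^ 4 := by gcongr
        _ = Real.exp (4 * u) := by rw [← Real.exp_nat_mul]; norm_num
    have hs := sav_pos K L
    calc 8 * sav K L * (1 + L) ^ 3 * L = 8 * sav K L * ((1 + L) ^ 3 * L) := by ring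
      _ ≤ 8 * (2 * Real.exp (-(100 * u ^ 3))) * Real.exp (4 * u) := by gcongr
      _ = 16 * Real.exp (-(100 * u ^ 3) + 4 * u) := by rw [Real.exp_add]; ring
      _ ≤ 16 * Real.exp (-12) := by
          have : -(100 * u ^ 3) + 4 * u ≤ -12 := by nlinarith
          have := Real.exp_le_exp.mpr this
          linarith
      _ ≤ 1 / 2000 := by
          have h1 : Real.exp 12 = Real.exp 6 * Real.exp 6 := by rw [← Real.exp_add]; norm_num
          have h2 : (65536 : ℝ) ≤ Real.exp 12 := by rw [h1]; nlinarith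
          rw [Real.exp_neg]
          have h3 : (Real.exp 12)⁻¹ ≤ (65536 : ℝ)⁻¹ := by gcongr
          norm_num at h3 ⊢
          linarith

end Pool.Agent.ESel
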