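import Mathlib
import Pool.Agent.ESel.Params
import Pool.Agent.ESel.Fast
import Pool.Agent.ESel.Bounded

/-!
If exactly one of `n, n-1, ..., n-k+1` fails to divide `C(n,k)` and `n ≥ 2k`, then
`log n > (1/5) log k log log k`, for large `k`.
-/

namespace Pool.Agent.ESel

open Finset Nat Filter

theorem fast_range : ∃ k0 : ℕ, ∀ k ≥ k0, ∀ n : ℕ, (k : ℝ) ^ (3 / 2 : ℝ) ≤ n →
    Real.log n ≤ 1 / 5 * Real.log k * Real.log (Real.log k) →
    ((goodP n k).card : ℝ) ≤ (1 / 120) * (k / Real.log k) := by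
  have hM := (Real.tendsto_log_atTop.comp (tendsto_natCast_atTop_atTop (R := ℝ))).eventually master
  have h1 : ∀ᶠ k : ℕ in atTop, (k : ℝ) ^ (1 / 4 : ℝ) * Real.log k ≤ (1 / 20000) * k := by
    have h2 := (isLittleO_log_rpow_atTop (show (0 : ℝ) < 3 / 4 by norm_num)).bound
      (show (0 : ℝ) < 1 / 20000 by norm_num)
    have h3 : ∀ᶠ x : ℝ in atTop, x ^ (1 / 4 : ℝ) * Real.log x ≤ (1 / 20000) * x := by
      filter_upwards [h2, eventually_gt_atTop 1] with x hx hx1
      have hx0 : 0 < x := by linarith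
      rw [Real.norm_of_nonneg (Real.log_nonneg hx1.le), Real.norm_of_nonneg (by positivity)] at hx
      calc x ^ (1 / 4 : ℝ) * Real.log x ≤ x ^ (1 / 4 : ℝ) * (1 / 20000 * x ^ (3 / 4 : ℝ)) := by
            gcongr
        _ = 1 / 20000 * (x ^ (1 / 4 : ℝ) * x ^ (3 / 4 : ℝ)) := by ring
        _ = (1 / 20000) * x := by
            rw [← Real.rpow_add hx0]
            norm_num
    exact tendsto_natCast_atTop_atTop.eventually h3
  obtain ⟨k0, hk0⟩ := eventually_atTop.mp (hM.and (h1.and (eventually_ge_atTop 1000000)))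
  refine ⟨k0, fun k hk n hn1 hn2 => ?_⟩
  obtain ⟨⟨hl, hM⟩, h1, hk1⟩ := hk0 k hk
  simp only [Function.comp] at hl hM
  have hkr : (1000000 : ℝ) ≤ k := by exact_mod_cast hk1
  have hk0 : (0 : ℝ) < k := by linarith
  obtain ⟨L, hL⟩ : ∃ L, L = Real.log k := ⟨_, rfl⟩
  rw [← hL] at hl hM h1 hn2 ⊢
  have hLpos : 0 < L := by rw [hL]; exact Real.log_pos (by linarith)
  have hexpL : Real.exp L = k := by rw [hL]; exact Real.exp_log hk0
  obtain ⟨l, hl'⟩ : ∃ l, l = Real.log L := ⟨_, rfl⟩
  have hQ1 : 1 ≤ √L := by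
    have h3 : 1 ≤ (Real.log L + 3) ^ 4 := one_le_pow₀ (by linarith)
    linarith
  obtain ⟨K, hK1, hK2⟩ := exists_nat_pow_near hQ1 (show (1 : ℝ) < 2 by norm_num)
  obtain ⟨C1, C2, C3, C4⟩ := params hl hM hK1
  rw [hexpL] at C2
  have hlog2 : Real.log 2 ≤ 6932 / 10000 := by
    have := Real.log_two_lt_d9; linarith
  have hKlow : l / 2 ≤ ((K : ℝ) + 1) * (6932 / 10000) := by
    have h2 := Real.log_le_log (by linarith) hK2.le
    rw [Real.log_sqrt hLpos.le, Real.log_pow, ← hl'] at h2
    push_cast at h2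
    have h3 : ((K : ℝ) + 1) * Real.log 2 ≤ (K + 1) * (6932 / 10000) := by
      have : (0 : ℝ) ≤ K := Nat.cast_nonneg K
      gcongr
    linarith
  have hn0 : (0 : ℝ) < n := lt_of_lt_of_le (by positivity) hn1
  have hlogn : Real.log (n / k) = Real.log n - L := by rw [Real.log_div hn0.ne' hk0.ne', ← hL]
  have hlogn1 : 3 / 2 * L ≤ Real.log n := by
    have := Real.log_le_log (by positivity) hn1
    rwa [Real.log_rpow hk0, ← hL] at this
  rw [← hl'] at hl hn2
  have hR1 : L / 2 ≤ Real.log (n / k) := by rw [hlogn]; linarith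
  have hR2 : 6 * Real.log (n / k) ≤ (2 * K + 3) * L := by
    rw [hlogn]
    have h3 : 6 / 5 * l ≤ 2 * K + 3 := by linarith
    have h4 : 6 / 5 * l * L ≤ (2 * K + 3) * L := by gcongr
    linarith
  refine (card_goodP_fast (by omega) hL hR1 hR2 C1 C2 C3).trans ?_
  have e1 : ((k : ℝ) / 65 + 1) / 16 / (L / 8) = (1 / 130) * (k / L) + (1 / 2) / L := by
    field_simp
    ring
  have e2 : (k : ℝ) ^ (1 / 4 : ℝ) ≤ (1 / 20000) * (k / L) := by
    rw [← mul_div_assoc, le_div_iff₀ hLpos]
    exact h1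
  have e3 : 8 * k * sav K L * (1 + L) ^ 3 ≤ (1 / 2000) * (k / L) := by
    rw [← mul_div_assoc, le_div_iff₀ hLpos]
    calc 8 * (k : ℝ) * sav K L * (1 + L) ^ 3 * L = (8 * sav K L * (1 + L) ^ 3 * L) * (k : ℝ) := by
          ring
      _ ≤ 1 / 2000 * (k : ℝ) := by gcongr
  have e4 : (1 / 2) / L ≤ (1 / 1000000) * (k / L) := by
    rw [← mul_div_assoc]
    gcongr
    linarith
  rw [e1]
  have : 0 < k / L := by positivity
  linarith

theorem main : ∃ k0 : ℕ, ∀ k ≥ k0, ∀ n : ℕ, 2 * k ≤ n → (bad n k).card = 1 →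
    1 / 5 * Real.log k * Real.log (Real.log k) < Real.log n := by
  obtain ⟨k1, hb⟩ := bounded_range
  obtain ⟨k2, hs⟩ := slow_range
  obtain ⟨k3, hf⟩ := fast_range
  have hpnt := tendsto_natCast_atTop_atTop (R := ℝ) |>.eventually
    (PNT.primes_interval (α := 64 / 65) (β := 1) (c := 1 / 70) (by norm_num) (by norm_num)
      (by norm_num))
  have hlog : ∀ᶠ k : ℕ in atTop, Real.log k * Real.log k ≤ (1 / 200) * k := by
    have h2 := (isLittleO_log_rpow_atTop (show (0 : ℝ) < 1 / 2 by norm_num)).bound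
      (show (0 : ℝ) < 1 / 20 by norm_num)
    have h3 : ∀ᶠ x : ℝ in atTop, Real.log x * Real.log x ≤ (1 / 200) * x := by
      filter_upwards [h2, eventually_gt_atTop 1] with x hx hx1
      have hx0 : 0 < x := by linarith
      have hl0 : 0 ≤ Real.log x := Real.log_nonneg hx1.le
      rw [Real.norm_of_nonneg hl0, Real.norm_of_nonneg (by positivity)] at hx
      calc Real.log x * Real.log x ≤ (1 / 20 * x ^ (1 / 2 : ℝ)) * (1 / 20 * x ^ (1 / 2 : ℝ)) := by
            gcongr
        _ = 1 / 400 * (x ^ (1 / 2 : ℝ) * x ^ (1 / 2 : ℝ)) := by ring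
        _ = (1 / 400) * x := by
            rw [← Real.rpow_add hx0]
            norm_num
        _ ≤ 1 / 200 * x := by linarith
    exact tendsto_natCast_atTop_atTop.eventually h3
  have hll : ∀ᶠ k : ℕ in atTop, 1 ≤ Real.log (Real.log k) ∧
      Real.log (Real.log k) ≤ Real.log k := by
    have h1 := (Real.tendsto_log_atTop.comp (Real.tendsto_log_atTop.comp
      (tendsto_natCast_atTop_atTop (R := ℝ)))).eventually_ge_atTop 1
    have h2 := (Real.tendsto_log_atTop.comp (tendsto_natCast_atTop_atTop (R := ℝ))).eventually_gt_atTop 0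
    filter_upwards [h1, h2] with k hk hk2
    refine ⟨hk, ?_⟩
    have := Real.log_le_sub_one_of_pos hk2
    simp only [Function.comp] at this ⊢
    linarith
  obtain ⟨k4, hk4⟩ := eventually_atTop.mp (hpnt.and (hlog.and (hll.and
    (eventually_ge_atTop 1000000))))
  refine ⟨max (max k1 k2) (max k3 k4), fun k hk n hn hcard => ?_⟩
  have hk1 : k1 ≤ k := le_trans (le_trans (le_max_left _ _) (le_max_left _ _)) hk
  have hk2 : k2 ≤ k := le_trans (le_trans (le_max_right _ _) (le_max_left _ _)) hk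
  have hk3 : k3 ≤ k := le_trans (le_trans (le_max_left _ _) (le_max_right _ _)) hk
  have hk4' : k4 ≤ k := le_trans (le_trans (le_max_right _ _) (le_max_right _ _)) hk
  obtain ⟨hpnt, hlog, ⟨hll1, hll2⟩, hkbig⟩ := hk4 k hk4'
  have hkr : (1000000 : ℝ) ≤ k := by exact_mod_cast hkbig
  have hk0 : (0 : ℝ) < k := by linarith
  have hkpos : 0 < k := by omega
  by_contra hcon
  push Not at hcon
  obtain ⟨i0, hi0⟩ := Finset.card_eq_one.mp hcard
  have hi0k : i0 < k := by
    have : i0 ∈ bad n k := by rw [hi0]; simp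
    unfold bad at this
    rw [mem_filter, mem_range] at this
    exact this.1
  have hkn : k < n := by omega
  by_cases hc : n ≤ 200 * k
  · exact hb k hk1 n i0 hn hc hi0k hi0
  push Not at hc
  have hL : 0 < Real.log k := Real.log_pos (by linarith)
  have hgood : ((goodP n k).card : ℝ) ≤ (1 / 120) * (k / Real.log k) := by
    by_cases hc2 : (n : ℝ) ≤ (k : ℝ) ^ (3 / 2 : ℝ)
    · refine (hs k hk2 n hc.le hc2).trans ?_
      have : 0 < (k : ℝ) / Real.log k := by positivity
      linarith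
    · push Not at hc2
      exact hf k hk3 n hc2.le hcon
  -- the primes
  have hfl : ⌊(64 / 65 : ℝ) * (k : ℝ)⌋₊ = 64 * k / 65 := by
    have h1 : (64 / 65 : ℝ) * (k : ℝ) = ((64 * k : ℕ) : ℝ) / ((65 : ℕ) : ℝ) := by
      push_cast; ring
    rw [h1, Nat.floor_div_eq_div]
  have hfl2 : ⌊(1 : ℝ) * (k : ℝ)⌋₊ = k := by rw [one_mul, Nat.floor_natCast]
  rw [hfl, hfl2] at hpnt
  set S := ((Ioc (64 * k / 65) k).filter Nat.Prime).filter (fun p => p ∣ n - i0) with hS
  have hsub : (Ioc (64 * k / 65) k).filter Nat.Prime ⊆ goodP n k ∪ S := by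
    intro p hp
    rw [mem_union]
    by_cases hd : p ∣ n - i0
    · right
      rw [hS, mem_filter]
      exact ⟨hp, hd⟩
    · left
      rw [mem_filter, mem_Ioc] at hp
      obtain ⟨⟨h1, h2⟩, h3⟩ := hp
      unfold goodP
      rw [mem_filter, mem_Ioc]
      refine ⟨⟨h1, h2⟩, h3, ?_⟩
      have h4 : 64 * k < 65 * p := by omega
      have hkp : k < p ^ 2 := by nlinarith
      have h5 := mod_lt_of_bad hi0 h3 h2 hkp hkn hd
      have h6 : k % p = k - p := by
        rw [Nat.mod_eq_sub_mod h2]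
        exact Nat.mod_eq_of_lt (by omega)
      rw [h6] at h5
      omega
  have hSle : (S.card : ℝ) ≤ Real.log (Real.log k) := by
    have h1 := card_primes_dvd (m := n - i0) (by omega) (y := k / 2) (by omega) S (by
      intro p hp
      rw [hS, mem_filter, mem_filter, mem_Ioc] at hp
      exact ⟨hp.1.2, by omega, hp.2⟩)
    have h2 : Real.log ((n - i0 : ℕ) : ℝ) ≤ Real.log n := by
      refine Real.log_le_log ?_ ?_
      · have : 0 < n - i0 := by omega
        exact_mod_cast this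
      · exact_mod_cast Nat.sub_le n i0
    have h3 : (1 / 2) * Real.log k ≤ Real.log ((k / 2 : ℕ) : ℝ) := by
      have h4 : k ≤ (k / 2) * (k / 2) := by
        have : k ≤ 2 * (k / 2) + 1 := by omega
        nlinarith
      have h5 : (k : ℝ) ≤ ((k / 2 : ℕ) : ℝ) * ((k / 2 : ℕ) : ℝ) := by exact_mod_cast h4
      have h6 := Real.log_le_log hk0 h5
      have h7 : (0 : ℝ) < ((k / 2 : ℕ) : ℝ) := by
        have : 0 < k / 2 := by omega
        exact_mod_cast this
      rw [Real.log_mul h7.ne' h7.ne'] at h6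
      linarith
    have h8 : (S.card : ℝ) * ((1 / 2) * Real.log k) ≤
        1 / 5 * Real.log k * Real.log (Real.log k) := by
      calc (S.card : ℝ) * ((1 / 2) * Real.log k) ≤ (S.card : ℝ) * Real.log ((k / 2 : ℕ) : ℝ) := by
            gcongr
        _ ≤ Real.log n := h1.trans h2
        _ ≤ _ := hcon
    have h9 : (S.card : ℝ) * Real.log k ≤ (2 / 5 * Real.log (Real.log k)) * Real.log k := by
      linarith
    have h10 := le_of_mul_le_mul_right h9 hL
    linarith
  have hcount : (((Ioc (64 * k / 65) k).filter Nat.Prime).card : ℝ) ≤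
      (goodP n k).card + S.card := by
    calc (((Ioc (64 * k / 65) k).filter Nat.Prime).card : ℝ) ≤ ((goodP n k ∪ S).card : ℝ) := by
          exact_mod_cast card_le_card hsub
      _ ≤ _ := by exact_mod_cast card_union_le _ _
  have hfin : Real.log (Real.log k) ≤ (1 / 200) * (k / Real.log k) := by
    rw [← mul_div_assoc, le_div_iff₀ hL]
    calc Real.log (Real.log k) * Real.log k ≤ Real.log k * Real.log k := by gcongr
      _ ≤ _ := hlog
  have hpos : 0 < (k : ℝ) / Real.log k := by positivity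
  have h11 : 1 / 70 * (k : ℝ) / Real.log k = 1 / 70 * (k / Real.log k) := by ring
  rw [h11] at hpnt
  linarith

end Pool.Agent.ESel
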