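import Mathlib
import Pool.Agent.ESel.Kummer

/-!
Construction of `n` with exactly one failing index `s`: divisibility.
-/

set_option autoImplicit false

namespace Pool.Agent.ESel

open Finset Nat

theorem choose_identity {n k s : ℕ} (hs : s + 1 ≤ k) :
    n.choose k * (k.choose (s + 1) * (s + 1)) =
      (n - s) * (n.choose s * (n - (s + 1)).choose (k - (s + 1))) := by
  have h1 := Nat.choose_mul (n := n) hs
  have h2 := Nat.choose_succ_right_eq n s
  calc n.choose k * (k.choose (s + 1) * (s + 1))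
      = (n.choose k * k.choose (s + 1)) * (s + 1) := by ring
    _ = (n.choose (s + 1) * (s + 1)) * (n - (s + 1)).choose (k - (s + 1)) := by rw [h1]; ring
    _ = (n - s) * (n.choose s * (n - (s + 1)).choose (k - (s + 1))) := by rw [h2]; ring

/-- a criterion for the divisibility at one prime -/
theorem fact_of_mod {n k p i : ℕ} (hp : p.Prime) (hkn : k ≤ n) (hi : i < k)
    (h : ∀ j, 1 ≤ j → p ^ j ∣ n - i → n % p ^ j < k % p ^ j) :
    (n - i).factorization p ≤ (n.choose k).factorization p := by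
  have hni : n - i ≠ 0 := by omega
  rw [Nat.factorization_choose hp hkn (Nat.lt_succ_self (Nat.log p n))]
  have h1 : Icc 1 ((n - i).factorization p) ⊆ (Ico 1 (Nat.log p n).succ).filter
      (fun j => p ^ j ≤ k % p ^ j + (n - k) % p ^ j) := by
    intro j hj
    rw [mem_Icc] at hj
    have hd : p ^ j ∣ n - i := (hp.pow_dvd_iff_le_factorization hni).2 hj.2
    rw [mem_filter, mem_Ico]
    refine ⟨⟨hj.1, ?_⟩, ?_⟩
    · rw [Nat.lt_succ_iff]
      refine Nat.le_log_of_pow_le hp.one_lt ?_
      exact (Nat.le_of_dvd (by omega) hd).trans (Nat.sub_le _ _)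
    · by_contra hc
      push Not at hc
      have h2 := h j hj.1 hd
      have h3 : n % p ^ j = k % p ^ j + (n - k) % p ^ j := by
        conv_lhs => rw [← Nat.add_sub_cancel' hkn, Nat.add_mod]
        exact Nat.mod_eq_of_lt hc
      rw [h3] at h2
      exact absurd h2 (not_lt.2 (Nat.le_add_right _ _))
  have h2 := card_le_card h1
  rwa [Nat.card_Icc, Nat.add_sub_cancel] at h2

theorem mod_of_dvd {n k m i : ℕ} (hkn : k ≤ n) (hi : i < k) (hm : k < m) (hd : m ∣ n - i) :
    n % m < k % m := by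
  rw [Nat.mod_eq_of_lt hm]
  have h1 : n = (n - i) + i := by omega
  obtain ⟨c, hc⟩ := hd
  rw [h1, hc, Nat.mul_add_mod, Nat.mod_eq_of_lt (by omega)]
  exact hi

/-- primes larger than `k` -/
theorem fact_big {n k p i : ℕ} (hp : p.Prime) (hkn : k ≤ n) (hi : i < k) (hpk : k < p) :
    (n - i).factorization p ≤ (n.choose k).factorization p := by
  refine fact_of_mod hp hkn hi fun j hj hd => mod_of_dvd hkn hi ?_ hd
  calc k < p := hpk
    _ = p ^ 1 := (pow_one p).symm
    _ ≤ p ^ j := Nat.pow_le_pow_right hp.pos hj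

/-- primes with `n mod p < k mod p` -/
theorem fact_good {n k p i : ℕ} (hp : p.Prime) (hkn : k ≤ n) (hi : i < k) (hpk : k < p ^ 2)
    (h : n % p < k % p) : (n - i).factorization p ≤ (n.choose k).factorization p := by
  refine fact_of_mod hp hkn hi fun j hj hd => ?_
  rcases Nat.eq_or_lt_of_le hj with h1 | h1
  · rw [← h1, pow_one]
    exact h
  · refine mod_of_dvd hkn hi ?_ hd
    exact hpk.trans_le (Nat.pow_le_pow_right hp.pos h1)

/-- primes of which a high power divides `n - s` -/
theorem fact_low {n k s p i : ℕ} (hp : p.Prime) (hpk : p ≤ k) (hs : s < k) (hkn : 2 * k ≤ n)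
    (hd : p ^ (3 * Nat.log p k) ∣ n - s) (hi : i < k) (his : i ≠ s) :
    (n - i).factorization p ≤ (n.choose k).factorization p := by
  set l := Nat.log p k with hl
  have hl1 : 1 ≤ l := Nat.le_log_of_pow_le hp.one_lt (by rwa [pow_one])
  have hkl : k < p ^ (l + 1) := Nat.lt_pow_succ_log_self hp.one_lt k
  have hns : n - s ≠ 0 := by omega
  have hni : n - i ≠ 0 := by omega
  have h1 : (n - i).factorization p ≤ l := by
    by_contra hc
    push Not at hc
    have h2 : p ^ (l + 1) ∣ n - i := (hp.pow_dvd_iff_le_factorization hni).2 hc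
    have h3 : p ^ (l + 1) ∣ n - s := (pow_dvd_pow p (by omega)).trans hd
    rcases Nat.lt_or_gt_of_ne his with h4 | h4
    · have h5 : p ^ (l + 1) ∣ (n - i) - (n - s) := Nat.dvd_sub h2 h3
      have h6 := Nat.le_of_dvd (by omega) h5
      omega
    · have h5 : p ^ (l + 1) ∣ (n - s) - (n - i) := Nat.dvd_sub h3 h2
      have h6 := Nat.le_of_dvd (by omega) h5
      omega
  refine h1.trans ?_
  have h2 := congrArg (fun m => m.factorization p) (choose_identity (n := n) (Nat.succ_le_of_lt hs))
  have hc1 : n.choose k ≠ 0 := (Nat.choose_pos (by omega)).ne'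
  have hc2 : k.choose (s + 1) ≠ 0 := (Nat.choose_pos hs).ne'
  have hc3 : n.choose s ≠ 0 := (Nat.choose_pos (by omega)).ne'
  have hc4 : (n - (s + 1)).choose (k - (s + 1)) ≠ 0 := (Nat.choose_pos (by omega)).ne'
  rw [Nat.factorization_mul hc1 (mul_ne_zero hc2 (by omega)),
    Nat.factorization_mul hc2 (by omega), Nat.factorization_mul hns (mul_ne_zero hc3 hc4)] at h2
  simp only [Finsupp.add_apply] at h2
  have h3 : 3 * l ≤ (n - s).factorization p := (hp.pow_dvd_iff_le_factorization hns).1 hd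
  have h4 : (k.choose (s + 1)).factorization p ≤ l := Nat.factorization_choose_le_log
  have h5 : (s + 1).factorization p ≤ l := by
    refine Nat.le_log_of_pow_le hp.one_lt ?_
    have h6 : p ^ (s + 1).factorization p ∣ s + 1 :=
      (hp.pow_dvd_iff_le_factorization (by omega)).2 le_rfl
    exact (Nat.le_of_dvd (by omega) h6).trans hs
  omega

theorem pow_dvd_mod {t p m j : ℕ} (hd : p ^ m ∣ t) (hj : m ≤ j) : p ^ m ∣ t % p ^ j :=
  (Nat.dvd_mod_iff (pow_dvd_pow p hj)).2 hd

theorem fact_zero_a {t s p m : ℕ} (hp : p.Prime) (hd : p ^ m ∣ t) (hs : s < p ^ m) :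
    (choose (t + s) s).factorization p = 0 := by
  rw [Nat.factorization_choose' hp (Nat.lt_succ_self _), Finset.card_eq_zero, filter_eq_empty_iff]
  intro j _
  push Not
  have hpj : 0 < p ^ j := Nat.pow_pos hp.pos
  rcases le_or_gt j m with hj | hj
  · rw [Nat.mod_eq_zero_of_dvd ((pow_dvd_pow p hj).trans hd), add_zero]
    exact Nat.mod_lt _ hpj
  · have h1 := pow_dvd_mod hd hj.le
    have h2 : t % p ^ j + p ^ m ≤ p ^ j := by
      have h3 : p ^ m ∣ p ^ j - t % p ^ j := Nat.dvd_sub (pow_dvd_pow p hj.le) h1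
      have h4 := Nat.mod_lt t hpj
      have h5 := Nat.le_of_dvd (by omega) h3
      omega
    have h3 := Nat.mod_le s (p ^ j)
    omega

theorem fact_zero_b {t r p m : ℕ} (hp : p.Prime) (hd : p ^ m ∣ t) (hr : r < p ^ m)
    (hrt : r < t) : (choose (t - 1) r).factorization p = 0 := by
  rw [Nat.factorization_choose hp (by omega) (Nat.lt_succ_self _), Finset.card_eq_zero,
    filter_eq_empty_iff]
  intro j _ hc
  have hpj : 0 < p ^ j := Nat.pow_pos hp.pos
  set u := t - 1 - r with hu
  have ht : t = r + u + 1 := by omega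
  have h1 := Nat.mod_lt r hpj
  have h2 := Nat.mod_lt u hpj
  -- the residue of `t`
  have h3 : t % p ^ j = r % p ^ j + u % p ^ j - p ^ j + 1 := by
    have h4 : t = p ^ j * (r / p ^ j + u / p ^ j + 1) +
        (r % p ^ j + u % p ^ j - p ^ j + 1) := by
      have h5 := Nat.div_add_mod r (p ^ j)
      have h6 := Nat.div_add_mod u (p ^ j)
      rw [mul_add, mul_add, mul_one]
      omega
    conv_lhs => rw [h4, Nat.mul_add_mod]
    exact Nat.mod_eq_of_lt (by omega)
  rcases le_or_gt j m with hj | hj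
  · rw [Nat.mod_eq_zero_of_dvd ((pow_dvd_pow p hj).trans hd)] at h3
    omega
  · have h4 := pow_dvd_mod hd hj.le
    have h5 := Nat.le_of_dvd (by omega) h4
    have h6 := Nat.mod_le r (p ^ j)
    omega

/-- the index `s` fails -/
theorem not_dvd_s {n k s p : ℕ} (hp : p.Prime) (hpk : p ∣ k) (hs : s < k) (hkn : 2 * k ≤ n)
    (hd : p ^ (3 * Nat.log p k) ∣ n - s) : ¬ (n - s) ∣ n.choose k := by
  intro hdvd
  have hk0 : 0 < k := by omega
  have hpk' : p ≤ k := Nat.le_of_dvd hk0 hpk
  set l := Nat.log p k with hl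
  have hl1 : 1 ≤ l := Nat.le_log_of_pow_le hp.one_lt (by rwa [pow_one])
  have hkl : k < p ^ (l + 1) := Nat.lt_pow_succ_log_self hp.one_lt k
  have hkl' : k < p ^ (3 * l) := hkl.trans_le (Nat.pow_le_pow_right hp.pos (by omega))
  have hns : n - s ≠ 0 := by omega
  have h2 := congrArg (fun m => m.factorization p) (choose_identity (n := n) (Nat.succ_le_of_lt hs))
  have hc1 : n.choose k ≠ 0 := (Nat.choose_pos (by omega)).ne'
  have hc2 : k.choose (s + 1) ≠ 0 := (Nat.choose_pos hs).ne'
  have hc3 : n.choose s ≠ 0 := (Nat.choose_pos (by omega)).ne'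
  have hc4 : (n - (s + 1)).choose (k - (s + 1)) ≠ 0 := (Nat.choose_pos (by omega)).ne'
  rw [Nat.factorization_mul hc1 (mul_ne_zero hc2 (by omega)),
    Nat.factorization_mul hns (mul_ne_zero hc3 hc4), Nat.factorization_mul hc3 hc4] at h2
  simp only [Finsupp.add_apply] at h2
  have h3 : (n.choose s).factorization p = 0 := by
    have h4 : n = (n - s) + s := by omega
    rw [h4]
    exact fact_zero_a hp hd (hs.trans hkl')
  have h4 : ((n - (s + 1)).choose (k - (s + 1))).factorization p = 0 := by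
    have h5 : n - (s + 1) = (n - s) - 1 := by omega
    rw [h5]
    exact fact_zero_b hp hd ((Nat.sub_le _ _).trans_lt hkl') (by omega)
  have h5 : 1 ≤ (k.choose (s + 1) * (s + 1)).factorization p := by
    refine (hp.dvd_iff_one_le_factorization (mul_ne_zero hc2 (by omega))).1 ?_
    obtain ⟨k', rfl⟩ : ∃ k', k = k' + 1 := ⟨k - 1, by omega⟩
    have h6 := Nat.add_one_mul_choose_eq k' s
    have h7 : (k' + 1).choose (s + 1) * (s + 1) = (k' + 1) * k'.choose s := h6.symm
    rw [h7]
    exact Dvd.dvd.mul_right hpk _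
  have h6 := (Nat.factorization_le_iff_dvd hns hc1).2 hdvd p
  omega

/-- exactly one index fails -/
theorem bad_eq {n k s y : ℕ} (hk : 2 ≤ k) (hy : k < (y + 1) ^ 2) (hs : s < k)
    (hkn : 2 * k ≤ n)
    (hE : ∀ p, p.Prime → p ≤ k → (p ≤ y ∨ k % p ≤ 2 * s) → p ^ (3 * Nat.log p k) ∣ n - s)
    (hG : ∀ p, p.Prime → p ≤ k → y < p → 2 * s < k % p → n % p < k % p) :
    bad n k = {s} := by
  ext i
  unfold bad
  rw [mem_filter, mem_range, mem_singleton]
  constructor
  · rintro ⟨hi, hni⟩
    by_contra his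
    apply hni
    have hni0 : n - i ≠ 0 := by omega
    have hc1 : n.choose k ≠ 0 := (Nat.choose_pos (by omega)).ne'
    refine (Nat.factorization_prime_le_iff_dvd hni0 hc1).1 fun p hp => ?_
    rcases lt_or_ge k p with hpk | hpk
    · exact fact_big hp (by omega) hi hpk
    · by_cases hc : p ≤ y ∨ k % p ≤ 2 * s
      · exact fact_low hp hpk hs hkn (hE p hp hpk hc) hi his
      · push Not at hc
        refine fact_good hp (by omega) hi ?_ (hG p hp hpk hc.1 hc.2)
        exact hy.trans_le (Nat.pow_le_pow_left hc.1 2)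
  · rintro rfl
    refine ⟨hs, ?_⟩
    have hp := Nat.minFac_prime (show k ≠ 1 by omega)
    refine not_dvd_s hp (Nat.minFac_dvd k) hs hkn (hE _ hp (Nat.minFac_le (by omega)) ?_)
    right
    rw [Nat.mod_eq_zero_of_dvd (Nat.minFac_dvd k)]
    exact Nat.zero_le _

end Pool.Agent.ESel
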