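import Mathlib
import Pool.Agent.ESel.UpA

/-!
Construction of `n` with exactly one failing index `s`: the pigeonhole principle.
-/

set_option autoImplicit false

namespace Pool.Agent.ESel

open Finset Nat

/-- the exceptional primes -/
def exc (k y s : ℕ) : Finset ℕ :=
  (range (k + 1)).filter fun p => p.Prime ∧ (p ≤ y ∨ k % p ≤ 2 * s)

/-- the other primes -/
def reg (k y s : ℕ) : Finset ℕ :=
  (range (k + 1)).filter fun p => p.Prime ∧ ¬ (p ≤ y ∨ k % p ≤ 2 * s)

theorem div_close {a b m : ℕ} (h : a / (m + 1) = b / (m + 1)) : a ≤ b + m ∧ b ≤ a + m := by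
  have h1 := Nat.lt_div_mul_add (a := a) (Nat.succ_pos m)
  have h2 := Nat.lt_div_mul_add (a := b) (Nat.succ_pos m)
  have h3 := Nat.div_mul_le_self a (m + 1)
  have h4 := Nat.div_mul_le_self b (m + 1)
  rw [Nat.succ_eq_add_one] at h1 h2
  rw [h] at h1 h3
  generalize b / (m + 1) * (m + 1) = c at *
  omega

theorem exists_n {k y s : ℕ} (hk : 2 ≤ k) (hy : k < (y + 1) ^ 2) (hs : s < k) (hs1 : 1 ≤ s) :
    ∃ n, 2 * k ≤ n ∧ bad n k = {s} ∧
      n ≤ (∏ p ∈ exc k y s, p ^ (3 * Nat.log p k)) * (∏ p ∈ reg k y s, (p / (s + 1) + 1)) + s := by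
  classical
  set Q := ∏ p ∈ exc k y s, p ^ (3 * Nat.log p k) with hQ
  set D := ∏ p ∈ reg k y s, (p / (s + 1) + 1) with hD
  have hQ0 : 0 < Q := by
    refine Finset.prod_pos fun p hp => ?_
    unfold exc at hp
    rw [mem_filter] at hp
    exact Nat.pow_pos hp.2.1.pos
  set f : ℕ → ℕ × ((p : ℕ) → p ∈ reg k y s → ℕ) :=
    fun x => (x % Q, fun p _ => (x % p) / (s + 1)) with hf
  have hmaps : Set.MapsTo f (range (Q * D + 1))
      ((range Q) ×ˢ (reg k y s).pi fun p => range (p / (s + 1) + 1) :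
        Finset (ℕ × ((p : ℕ) → p ∈ reg k y s → ℕ))) := by
    intro x _
    rw [mem_coe, mem_product]
    refine ⟨mem_range.2 (Nat.mod_lt _ hQ0), ?_⟩
    rw [mem_pi]
    intro p hp
    rw [mem_range, Nat.lt_succ_iff]
    refine Nat.div_le_div_right (Nat.mod_lt _ ?_).le
    unfold reg at hp
    rw [mem_filter] at hp
    exact hp.2.1.pos
  have hcard : (((range Q) ×ˢ (reg k y s).pi fun p => range (p / (s + 1) + 1) :
        Finset (ℕ × ((p : ℕ) → p ∈ reg k y s → ℕ)))).card < (range (Q * D + 1)).card := by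
    rw [card_product, card_range, card_range, Finset.card_pi]
    simp only [card_range]
    exact Nat.lt_succ_self _
  obtain ⟨x, hx, x', hx', hne, hxx⟩ := exists_ne_map_eq_of_card_lt_of_maps_to hcard hmaps
  -- order the two
  obtain ⟨u, v, hu, huv, hv, hfu⟩ : ∃ u v : ℕ, u < v ∧ v ≤ Q * D ∧ f u = f v ∧ True := by
    rw [mem_range] at hx hx'
    rcases Nat.lt_or_gt_of_ne hne with h | h
    · exact ⟨x, x', h, by omega, hxx, trivial⟩
    · exact ⟨x', x, h, by omega, hxx.symm, trivial⟩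
  have h1 : u % Q = v % Q := congrArg Prod.fst hv
  have h2 : ∀ p ∈ reg k y s, (u % p) / (s + 1) = (v % p) / (s + 1) := fun p hp =>
    congrFun (congrFun (congrArg Prod.snd hv) p) hp
  have hQt : Q ∣ v - u := (Nat.modEq_iff_dvd' hu.le).1 h1
  have hdvd : ∀ p, p.Prime → p ≤ k → (p ≤ y ∨ k % p ≤ 2 * s) → p ^ (3 * Nat.log p k) ∣ Q := by
    intro p hp hpk hc
    refine Finset.dvd_prod_of_mem (fun p => p ^ (3 * Nat.log p k)) ?_
    unfold exc
    rw [mem_filter, mem_range]
    exact ⟨by omega, hp, hc⟩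
  have hQk : 2 * k ≤ Q := by
    have h3 := hdvd 2 Nat.prime_two hk (Or.inr (by omega))
    have h4 := Nat.le_of_dvd hQ0 h3
    refine le_trans ?_ h4
    have h5 : k < 2 ^ (Nat.log 2 k + 1) := Nat.lt_pow_succ_log_self (by norm_num) k
    have h6 : 1 ≤ Nat.log 2 k := Nat.le_log_of_pow_le (by norm_num) (by simpa using hk)
    have h7 : 2 ^ 1 ≤ 2 ^ Nat.log 2 k := Nat.pow_le_pow_right (by norm_num) h6
    rw [pow_succ] at h5
    rw [mul_comm 3, pow_mul]
    set a := 2 ^ Nat.log 2 k with ha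
    have h8 : 2 ≤ a := by simpa using h7
    have h9 : 4 * a ≤ a ^ 3 := by
      have h10 : 2 * 2 ≤ a * a := Nat.mul_le_mul h8 h8
      calc 4 * a = (2 * 2) * a := by ring
        _ ≤ (a * a) * a := Nat.mul_le_mul_right _ h10
        _ = a ^ 3 := by ring
    omega
  have hQle : Q ≤ v - u := Nat.le_of_dvd (by omega) hQt
  refine ⟨(v - u) + s, by omega, ?_, by omega⟩
  refine bad_eq hk hy hs (by omega) ?_ ?_
  · intro p hp hpk hc
    rw [Nat.add_sub_cancel]
    exact (hdvd p hp hpk hc).trans hQt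
  · intro p hp hpk hyp hsp
    have hp0 := hp.pos
    have hmem : p ∈ reg k y s := by
      unfold reg
      rw [mem_filter, mem_range]
      exact ⟨by omega, hp, by omega⟩
    obtain ⟨h10, h11⟩ := div_close (h2 p hmem)
    have h12 : p * (u / p) ≤ p * (v / p) := Nat.mul_le_mul_left p (Nat.div_le_div_right hu.le)
    have h13 : v - u + s = p * (v / p - u / p) + (v % p + s - u % p) := by
      rw [Nat.mul_sub]
      have h4 := Nat.div_add_mod u p
      have h5 := Nat.div_add_mod v p
      generalize u % p = a at *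
      generalize v % p = b at *
      generalize p * (u / p) = U at *
      generalize p * (v / p) = V at *
      omega
    have h15 := Nat.mod_lt k hp0
    have h14 : v % p + s - u % p ≤ 2 * s := by
      generalize u % p = a at *
      generalize v % p = b at *
      omega
    rw [h13, Nat.mul_add_mod, Nat.mod_eq_of_lt (by omega)]
    omega

/-- an explicit bound -/
theorem exists_n_le {k y s : ℕ} (hk : 2 ≤ k) (hy : k < (y + 1) ^ 2) (hs : s < k) (hs1 : 1 ≤ s) :
    ∃ n, 2 * k ≤ n ∧ bad n k = {s} ∧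
      n ≤ k ^ (3 * (exc k y s).card + 1) * (k / (s + 1) + 1) ^ Nat.primeCounting k := by
  obtain ⟨n, hn, hb, hle⟩ := exists_n hk hy hs hs1
  refine ⟨n, hn, hb, ?_⟩
  have h1 : ∏ p ∈ exc k y s, p ^ (3 * Nat.log p k) ≤ k ^ (3 * (exc k y s).card) := by
    rw [pow_mul, ← Finset.prod_const]
    refine Finset.prod_le_prod' fun p hp => ?_
    rw [mul_comm, pow_mul]
    exact Nat.pow_le_pow_left (Nat.pow_log_le_self p (by omega)) 3
  have h2 : ∏ p ∈ reg k y s, (p / (s + 1) + 1) ≤ (k / (s + 1) + 1) ^ Nat.primeCounting k := by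
    calc ∏ p ∈ reg k y s, (p / (s + 1) + 1) ≤ ∏ p ∈ reg k y s, (k / (s + 1) + 1) := by
          refine Finset.prod_le_prod' fun p hp => ?_
          unfold reg at hp
          rw [mem_filter, mem_range] at hp
          exact Nat.succ_le_succ (Nat.div_le_div_right (c := s + 1) (by omega))
      _ = (k / (s + 1) + 1) ^ (reg k y s).card := Finset.prod_const _
      _ ≤ (k / (s + 1) + 1) ^ Nat.primeCounting k := by
          refine Nat.pow_le_pow_right (Nat.succ_pos _) ?_
          rw [Nat.primeCounting, Nat.primeCounting', Nat.count_eq_card_filter_range]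
          refine card_le_card fun p hp => ?_
          unfold reg at hp
          rw [mem_filter] at hp ⊢
          exact ⟨hp.1, hp.2.1⟩
  have h3 := Nat.mul_le_mul h1 h2
  set a := k ^ (3 * (exc k y s).card) * (k / (s + 1) + 1) ^ Nat.primeCounting k with ha
  have ha0 : 1 ≤ a := by
    exact Nat.succ_le_of_lt (Nat.mul_pos (Nat.pow_pos (by omega)) (Nat.pow_pos (Nat.succ_pos _)))
  have h4 : k ^ (3 * (exc k y s).card + 1) * (k / (s + 1) + 1) ^ Nat.primeCounting k = a * k := by
    rw [ha, pow_succ]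
    ring
  rw [h4]
  refine (hle.trans (Nat.add_le_add_right h3 s)).trans ?_
  have h5 : a + s ≤ a * k := by
    obtain ⟨j, rfl⟩ : ∃ j, k = j + 1 := ⟨k - 1, by omega⟩
    rw [Nat.mul_add, mul_one]
    have h6 : s ≤ a * j := by
      calc s ≤ j := by omega
        _ = 1 * j := (one_mul j).symm
        _ ≤ a * j := Nat.mul_le_mul_right _ ha0
    omega
  exact h5

end Pool.Agent.ESel
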