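import Mathlib
import Pool.Agent.ESel.UpB
import Pool.Agent.ESel.Slow

/-!
The number of exceptional primes.
-/

set_option autoImplicit false

namespace Pool.Agent.ESel

open Finset

theorem exc_subset {k y s D : ℕ} (hDy : D ≤ y) (hs : 2 * s < k) :
    exc k y s ⊆ range (y + 1) ∪ (Icc 1 (k / (y + 1))).biUnion fun j =>
      (Ioc ((k - 2 * s - 1) / j) (k / j)).filter fun x => x.Prime ∧ D < x := by
  intro p hp
  unfold exc at hp
  rw [mem_filter, mem_range] at hp
  obtain ⟨hpk, hpp, hc⟩ := hp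
  rw [mem_union, mem_range, mem_biUnion]
  by_cases hy : p ≤ y
  · left
    omega
  · right
    push Not at hy
    have hr : k % p ≤ 2 * s := by
      rcases hc with h | h
      · omega
      · exact h
    have hp0 := hpp.pos
    have hj : 1 ≤ k / p := Nat.div_pos (by omega) hp0
    have hdm := Nat.div_add_mod k p
    have hjk : p * (k / p) ≤ k := by omega
    refine ⟨k / p, mem_Icc.2 ⟨hj, Nat.div_le_div_left hy (Nat.succ_pos y)⟩, ?_⟩
    rw [mem_filter, mem_Ioc]
    refine ⟨⟨?_, ?_⟩, hpp, by omega⟩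
    · rw [Nat.div_lt_iff_lt_mul hj]
      omega
    · rwa [Nat.le_div_iff_mul_le hj]

theorem card_exc {k y s D : ℕ} (hD : 1 ≤ D) (hDy : D ≤ y) (hs : 2 * s < k) :
    ((exc k y s).card : ℝ) ≤ (y + 1) + ((2 * s + 1) * (1 + Real.log ((k / (y + 1) : ℕ) : ℝ)) +
      ((k / (y + 1) : ℕ) : ℝ)) / Real.log (D + 1) + ((k / (y + 1) : ℕ) : ℝ) * D ^ 2 := by
  set J := k / (y + 1) with hJ
  have h1 : (exc k y s).card ≤ (y + 1) + ∑ j ∈ Icc 1 J,
      ((Ioc ((k - 2 * s - 1) / j) (k / j)).filter fun x => x.Prime ∧ D < x).card := by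
    refine (card_le_card (exc_subset hDy hs)).trans ((card_union_le _ _).trans ?_)
    rw [card_range]
    exact Nat.add_le_add_left card_biUnion_le _
  have hlog : 0 < Real.log ((D : ℝ) + 1) := by
    refine Real.log_pos ?_
    have : (1 : ℝ) ≤ D := by exact_mod_cast hD
    linarith
  have h2 : ∀ j ∈ Icc 1 J,
      (((Ioc ((k - 2 * s - 1) / j) (k / j)).filter fun x => x.Prime ∧ D < x).card : ℝ) ≤
        ((2 * s + 1) * (j : ℝ)⁻¹ + 1) / Real.log (D + 1) + D ^ 2 := by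
    intro j hj
    rw [mem_Icc] at hj
    have hj0 : (0 : ℝ) < j := by exact_mod_cast hj.1
    have hle : (k - 2 * s - 1) / j ≤ k / j := Nat.div_le_div_right (by omega)
    refine (brun_titchmarsh hD _ _ hle).trans ?_
    have h3 : (((k / j : ℕ) : ℝ)) ≤ (k : ℝ) / j := Nat.cast_div_le
    have h4 : ((k : ℝ) - 2 * s - 1) / j < (((k - 2 * s - 1) / j : ℕ) : ℝ) + 1 := by
      rw [div_lt_iff₀ hj0]
      have h5 := Nat.lt_div_mul_add (a := k - 2 * s - 1) hj.1
      have h6 : k < (k - 2 * s - 1) / j * j + j + 2 * s + 1 := by omega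
      have h7 : (k : ℝ) < (((k - 2 * s - 1) / j : ℕ) : ℝ) * j + j + 2 * s + 1 := by
        exact_mod_cast h6
      rw [add_mul, one_mul]
      linarith
    have h5 : (((k / j : ℕ) : ℝ)) - (((k - 2 * s - 1) / j : ℕ) : ℝ) ≤
        (2 * s + 1) * (j : ℝ)⁻¹ + 1 := by
      have h6 : ((k : ℝ) - 2 * s - 1) / j = (k : ℝ) / j - (2 * s + 1) * (j : ℝ)⁻¹ := by
        field_simp
        ring
      rw [h6] at h4
      linarith
    gcongr
  have h3 : ∑ j ∈ Icc 1 J, (j : ℝ)⁻¹ ≤ 1 + Real.log J := by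
    have h4 := harmonic_le_one_add_log J
    rw [harmonic_eq_sum_Icc] at h4
    push_cast at h4
    exact h4
  calc ((exc k y s).card : ℝ) ≤ (y + 1) + ∑ j ∈ Icc 1 J,
      (((Ioc ((k - 2 * s - 1) / j) (k / j)).filter fun x => x.Prime ∧ D < x).card : ℝ) := by
        exact_mod_cast h1
    _ ≤ (y + 1) + ∑ j ∈ Icc 1 J, (((2 * s + 1) * (j : ℝ)⁻¹ + 1) / Real.log (D + 1) + D ^ 2) :=
        add_le_add le_rfl (Finset.sum_le_sum h2)
    _ = (y + 1) + (((2 * s + 1) * ∑ j ∈ Icc 1 J, (j : ℝ)⁻¹) + J) / Real.log (D + 1) +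
        J * D ^ 2 := by
        rw [Finset.sum_add_distrib, ← Finset.sum_div, Finset.sum_add_distrib, ← Finset.mul_sum]
        simp only [Finset.sum_const, Nat.card_Icc, Nat.add_sub_cancel, nsmul_eq_mul, mul_one]
        ring
    _ ≤ _ := by gcongr

end Pool.Agent.ESel
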