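import Mathlib
import Pool.Agent.ESel.UpC
import Pool.Agent.PNT.Short

/-!
The upper bound `exp ((1 + ε) k log log k / log k)`.
-/

set_option autoImplicit false

namespace Pool.Agent.ESel

open Finset Filter Topology

theorem up_aux {K L u : ℝ} (hL : 1000 ≤ L) (hu : L ^ 8 ≤ u) (hK : K = u ^ 8) :
    3 * K / L ^ 2 + 100 * L + 24 * L ^ 3 + 3 * L ^ 4 * u ^ 2 ≤ K / L ∧ L ^ 6 < K ∧
      u ≤ K / L ^ 3 ∧ 1 ≤ u := by
  have hL0 : 0 < L := by linarith
  have hL1 : 1 ≤ L := by linarith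
  have h1 : (1000 : ℝ) * L ^ 7 ≤ L ^ 8 := by
    have : 0 ≤ L ^ 7 := by positivity
    nlinarith
  have hL7 : ∀ n : ℕ, n ≤ 7 → L ^ n ≤ L ^ 7 := fun n hn => pow_le_pow_right₀ hL1 hn
  have hu1 : 1 ≤ u := by
    have := hL7 0 (by norm_num)
    rw [pow_zero] at this
    linarith
  have hu0 : 0 < u := by linarith
  have hup : ∀ n : ℕ, 1 ≤ n → u ≤ u ^ n := fun n hn => by
    calc u = u ^ 1 := (pow_one u).symm
      _ ≤ u ^ n := pow_le_pow_right₀ hu1 hn
  have hbig : ∀ n : ℕ, n ≤ 7 → ∀ m : ℕ, 1 ≤ m → 1000 * L ^ n ≤ u ^ m := by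
    intro n hn m hm
    have := hL7 n hn
    have := hup m hm
    linarith
  have hKL : K / L = K / (4 * L) + K / (4 * L) + K / (4 * L) + K / (4 * L) := by
    field_simp
    ring
  have e1 : 3 * K / L ^ 2 ≤ K / (4 * L) := by
    rw [div_le_div_iff₀ (by positivity) (by positivity)]
    have hK0 : 0 ≤ K := by rw [hK]; positivity
    have : 0 ≤ K * L := by positivity
    nlinarith
  have e2 : 100 * L + 24 * L ^ 3 ≤ K / (4 * L) := by
    rw [le_div_iff₀ (by positivity), hK]
    have h2 := hbig 4 (by norm_num) 8 (by norm_num)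
    have h3 : L ^ 2 ≤ L ^ 4 := pow_le_pow_right₀ hL1 (by norm_num)
    nlinarith
  have e3 : 3 * L ^ 4 * u ^ 2 ≤ K / (4 * L) := by
    rw [le_div_iff₀ (by positivity), hK]
    have h2 := hbig 5 (by norm_num) 6 (by norm_num)
    have h3 : 0 ≤ u ^ 2 := by positivity
    calc 3 * L ^ 4 * u ^ 2 * (4 * L) = (12 * L ^ 5) * u ^ 2 := by ring
      _ ≤ u ^ 6 * u ^ 2 := by
        refine mul_le_mul_of_nonneg_right ?_ h3
        have : 0 ≤ L ^ 5 := by positivity
        linarith
      _ = u ^ 8 := by ring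
  have hK4 : 0 ≤ K / (4 * L) := by rw [hK]; positivity
  refine ⟨by linarith, ?_, ?_, hu1⟩
  · have h2 := hbig 6 (by norm_num) 8 (by norm_num)
    have : 0 < L ^ 6 := by positivity
    rw [hK]
    linarith
  · rw [le_div_iff₀ (by positivity), hK]
    have h2 := hbig 3 (by norm_num) 7 (by norm_num)
    calc u * L ^ 3 ≤ u * u ^ 7 := by
          refine mul_le_mul_of_nonneg_left ?_ hu0.le
          have : 0 ≤ L ^ 3 := by positivity
          linarith
      _ = u ^ 8 := by ring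

theorem up_main {k : ℕ} {L l δ : ℝ} (hk : 1 ≤ k) (hLk : L = Real.log k) (hlL : l = Real.log L)
    (hδ0 : 0 < δ) (hδ : δ ≤ 1) (hL : 1000 ≤ L) (hu : L ^ 8 ≤ (k : ℝ) ^ (1 / 8 : ℝ))
    (f1 : 193 ≤ δ * l) (f3 : (Nat.primeCounting k : ℝ) * L / k ≤ 1 + δ)
    (f4 : Real.log 2 + Real.log l ≤ δ * l) :
    ∃ n, 2 * k ≤ n ∧ (bad n k).card = 1 ∧
      Real.log n ≤ (1 + 4 * δ) * k * l / L := by
  set K : ℝ := (k : ℝ) with hKdef
  set u : ℝ := K ^ (1 / 8 : ℝ) with hudef
  have hK0 : (0 : ℝ) < K := by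
    rw [hKdef]
    exact_mod_cast hk
  have hKu : K = u ^ 8 := by
    rw [hudef, ← Real.rpow_natCast, ← Real.rpow_mul hK0.le]
    norm_num
  have hKu2 : K ^ (1 / 4 : ℝ) = u ^ 2 := by
    rw [hudef, ← Real.rpow_natCast, ← Real.rpow_mul hK0.le]
    norm_num
  obtain ⟨g1, g2, g3, g4⟩ := up_aux hL hu hKu
  have hL0 : 0 < L := by linarith
  have hl1 : 1 ≤ l := by nlinarith
  have hl0 : 0 < l := by linarith
  have hlL' : l ≤ L := by
    rw [hlL]
    exact (Real.log_le_sub_one_of_pos hL0).trans (by linarith)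
  set y : ℕ := ⌊K / L ^ 3⌋₊ with hy
  set s : ℕ := ⌊K / (L * l)⌋₊ with hs
  have hy1 : K / L ^ 3 < (y : ℝ) + 1 := Nat.lt_floor_add_one _
  have hy2 : (y : ℝ) ≤ K / L ^ 3 := Nat.floor_le (by positivity)
  have hs1 : K / (L * l) < (s : ℝ) + 1 := Nat.lt_floor_add_one _
  have hs2 : (s : ℝ) ≤ K / (L * l) := Nat.floor_le (by positivity)
  have hk2 : 2 ≤ k := by
    have h1 : (2 : ℝ) < K := by
      have h2 : L ^ 1 ≤ L ^ 6 := pow_le_pow_right₀ (by linarith) (by norm_num)
      rw [pow_one] at h2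
      linarith
    rw [hKdef] at h1
    have h2 : ((2 : ℕ) : ℝ) < (k : ℝ) := by exact_mod_cast h1
    exact (Nat.cast_lt.1 h2).le
  have hyk : k < (y + 1) ^ 2 := by
    have h1 : K < ((y : ℝ) + 1) ^ 2 := by
      have h2 : (K / L ^ 3) ^ 2 < ((y : ℝ) + 1) ^ 2 :=
        pow_lt_pow_left₀ hy1 (by positivity) (by norm_num)
      refine lt_of_le_of_lt ?_ h2
      rw [div_pow, le_div_iff₀ (by positivity), ← pow_mul]
      norm_num
      have : K * L ^ 6 ≤ K * K := mul_le_mul_of_nonneg_left g2.le hK0.le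
      nlinarith
    rw [hKdef] at h1
    exact_mod_cast h1
  have hsk2 : 2 * s < k := by
    have h1 : 2 * (s : ℝ) < K := by
      have h2 : K / (L * l) ≤ K / 1000 := by
        refine div_le_div_of_nonneg_left hK0.le (by norm_num) ?_
        nlinarith
      have h3 : K / 1000 < K / 2 := by
        rw [div_lt_div_iff_of_pos_left hK0 (by norm_num) (by norm_num)]
        norm_num
      linarith
    rw [hKdef] at h1
    exact_mod_cast h1
  have hs1' : 1 ≤ s := by
    rw [hs, Nat.one_le_floor_iff, le_div_iff₀ (by positivity), one_mul]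
    have h1 : L * l ≤ L ^ 2 := by
      rw [pow_two]
      exact mul_le_mul_of_nonneg_left hlL' hL0.le
    have h2 : L ^ 2 ≤ L ^ 6 := pow_le_pow_right₀ (by linarith) (by norm_num)
    linarith
  obtain ⟨n, hn, hb, hle⟩ := exists_n_le hk2 hyk (by omega) hs1'
  refine ⟨n, hn, by rw [hb, card_singleton], ?_⟩
  -- the number of exceptional primes
  have hD1 : 1 ≤ lev k := lev_pos hk
  have hDy : lev k ≤ y := Nat.le_floor ((lev_le k).trans g3)
  have hc := card_exc hD1 hDy hsk2
  set c : ℝ := ((exc k y s).card : ℝ) with hcdef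
  set J : ℝ := ((k / (y + 1) : ℕ) : ℝ) with hJdef
  have hJ0 : 0 ≤ J := Nat.cast_nonneg _
  have hJ : J ≤ L ^ 3 := by
    have h1 : J ≤ K / ((y : ℝ) + 1) := by
      have := Nat.cast_div_le (α := ℝ) (m := k) (n := y + 1)
      push_cast at this
      exact this
    refine h1.trans ?_
    rw [div_le_iff₀ (by positivity)]
    rw [div_lt_iff₀ (by positivity)] at hy1
    linarith
  have hlogJ : Real.log J ≤ 3 * l := by
    rcases hJ0.eq_or_lt with h0 | h0
    · rw [← h0, Real.log_zero]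
      positivity
    · calc Real.log J ≤ Real.log (L ^ 3) := Real.log_le_log h0 hJ
        _ = 3 * l := by rw [Real.log_pow, hlL]; norm_num
  have hlogD := log_lev hk
  rw [← hKdef, ← hLk] at hlogD
  have hDsq := lev_sq_le (k := k)
  rw [← hKdef, hKu2] at hDsq
  have hcb : c ≤ (K / L ^ 3 + 1) + ((2 * (K / (L * l)) + 1) * (4 * l) + L ^ 3) * (8 / L) +
      L ^ 3 * u ^ 2 := by
    refine hc.trans ?_
    have h1 : ((2 * (s : ℝ) + 1) * (1 + Real.log J) + J) ≤
        (2 * (K / (L * l)) + 1) * (4 * l) + L ^ 3 := by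
      have h2 : 1 + Real.log J ≤ 4 * l := by linarith
      have h3 : (2 * (s : ℝ) + 1) ≤ 2 * (K / (L * l)) + 1 := by linarith
      have h4 : (0 : ℝ) ≤ 2 * s + 1 := by positivity
      have h5 : (2 * (s : ℝ) + 1) * (1 + Real.log J) ≤ (2 * (s : ℝ) + 1) * (4 * l) :=
        mul_le_mul_of_nonneg_left h2 h4
      have h6 : (2 * (s : ℝ) + 1) * (4 * l) ≤ (2 * (K / (L * l)) + 1) * (4 * l) :=
        mul_le_mul_of_nonneg_right h3 (by positivity)
      linarith
    have h2 : ((2 * (s : ℝ) + 1) * (1 + Real.log J) + J) / Real.log ((lev k : ℝ) + 1) ≤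
        ((2 * (K / (L * l)) + 1) * (4 * l) + L ^ 3) * (8 / L) := by
      rw [div_le_iff₀ (lt_of_lt_of_le (by positivity) hlogD)]
      refine h1.trans ?_
      have h3 : 1 ≤ 8 / L * Real.log ((lev k : ℝ) + 1) := by
        calc (1 : ℝ) = 8 / L * (L / 8) := by field_simp
          _ ≤ _ := mul_le_mul_of_nonneg_left hlogD (by positivity)
      rw [mul_assoc]
      exact le_mul_of_one_le_right (by positivity) h3
    have h3 : J * (lev k : ℝ) ^ 2 ≤ L ^ 3 * u ^ 2 :=
      mul_le_mul hJ hDsq (by positivity) (by positivity)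
    linarith
  have hcL : (3 * c + 1) * L ≤ 193 * (K / L) := by
    have h1 : ((2 * (K / (L * l)) + 1) * (4 * l) + L ^ 3) * (8 / L) =
        64 * (K / L ^ 2) + 32 * (l / L) + 8 * L ^ 2 := by
      field_simp
      ring
    rw [h1] at hcb
    have h2 : l / L ≤ 1 := by
      rw [div_le_one hL0]
      exact hlL'
    have h3 : (3 * c + 1) * L ≤ (3 * (K / L ^ 3 + 1 + (64 * (K / L ^ 2) + 32 + 8 * L ^ 2) +
        L ^ 3 * u ^ 2) + 1) * L := by
      refine mul_le_mul_of_nonneg_right ?_ hL0.le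
      linarith
    have h4 : (3 * (K / L ^ 3 + 1 + (64 * (K / L ^ 2) + 32 + 8 * L ^ 2) +
        L ^ 3 * u ^ 2) + 1) * L = (3 * K / L ^ 2 + 100 * L + 24 * L ^ 3 + 3 * L ^ 4 * u ^ 2) +
          192 * (K / L) := by
      field_simp
      ring
    rw [h4] at h3
    linarith
  -- the number of cells
  set B : ℝ := ((k / (s + 1) + 1 : ℕ) : ℝ) with hB
  have hB1 : 1 ≤ B := by
    rw [hB]
    exact_mod_cast Nat.succ_pos _
  have hBl : Real.log B ≤ (1 + δ) * l := by
    have h1 : B ≤ 2 * L * l := by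
      have h2 : B ≤ K / ((s : ℝ) + 1) + 1 := by
        have := Nat.cast_div_le (α := ℝ) (m := k) (n := s + 1)
        rw [hB]
        push_cast at this ⊢
        linarith
      have h3 : K / ((s : ℝ) + 1) ≤ L * l := by
        rw [div_le_iff₀ (by positivity)]
        rw [div_lt_iff₀ (by positivity)] at hs1
        linarith
      nlinarith
    calc Real.log B ≤ Real.log (2 * L * l) := Real.log_le_log (by linarith) h1
      _ = Real.log 2 + l + Real.log l := by
        rw [Real.log_mul (by positivity) hl0.ne', Real.log_mul (by norm_num) hL0.ne', ← hlL]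
      _ ≤ (1 + δ) * l := by linarith
  have hn0 : (0 : ℝ) < n := by
    have : 0 < n := by omega
    exact_mod_cast this
  have h1 : (n : ℝ) ≤ K ^ (3 * (exc k y s).card + 1) * B ^ Nat.primeCounting k := by
    have h2 : (n : ℝ) ≤ ((k ^ (3 * (exc k y s).card + 1) *
        (k / (s + 1) + 1) ^ Nat.primeCounting k : ℕ) : ℝ) := by exact_mod_cast hle
    rw [Nat.cast_mul, Nat.cast_pow, Nat.cast_pow] at h2
    exact h2
  have h2 : Real.log n ≤ (3 * c + 1) * L + Nat.primeCounting k * Real.log B := by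
    refine (Real.log_le_log hn0 h1).trans (le_of_eq ?_)
    rw [Real.log_mul (by positivity) (by positivity), Real.log_pow, Real.log_pow, ← hLk]
    push_cast
    ring
  have h3 : (Nat.primeCounting k : ℝ) * Real.log B ≤ (1 + δ) * (K / L) * ((1 + δ) * l) := by
    have h4 : (Nat.primeCounting k : ℝ) ≤ (1 + δ) * (K / L) := by
      rw [div_le_iff₀ hK0] at f3
      rw [← mul_div_assoc, le_div_iff₀ hL0]
      exact f3
    exact mul_le_mul h4 hBl (Real.log_nonneg hB1) (by positivity)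
  have h4 : 193 * (K / L) ≤ δ * l * (K / L) := mul_le_mul_of_nonneg_right f1 (by positivity)
  have h5 : (1 + 4 * δ) * K * l / L = δ * l * (K / L) + (1 + 3 * δ) * (K / L * l) := by
    field_simp
    ring
  have h6 : (1 + δ) * (K / L) * ((1 + δ) * l) ≤ (1 + 3 * δ) * (K / L * l) := by
    have h7 : (1 + δ) * (K / L) * ((1 + δ) * l) = (1 + δ) ^ 2 * (K / L * l) := by ring
    rw [h7]
    refine mul_le_mul_of_nonneg_right ?_ (by positivity)
    nlinarith
  rw [h5]
  linarith

/-- **The upper bound.** -/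
theorem upper {ε : ℝ} (hε : 0 < ε) : ∃ k0 : ℕ, ∀ k ≥ k0, ∃ n, 2 * k ≤ n ∧
    (bad n k).card = 1 ∧ Real.log n ≤ (1 + ε) * k * Real.log (Real.log k) / Real.log k := by
  set δ : ℝ := min (ε / 4) 1 with hδ
  have hδ0 : 0 < δ := lt_min (by positivity) one_pos
  have hδ1 : δ ≤ 1 := min_le_right _ _
  have hδε : 4 * δ ≤ ε := by
    have : δ ≤ ε / 4 := min_le_left _ _
    linarith
  have hL : Tendsto (fun k : ℕ => Real.log (k : ℝ)) atTop atTop :=
    Real.tendsto_log_atTop.comp tendsto_natCast_atTop_atTop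
  have hl : Tendsto (fun k : ℕ => Real.log (Real.log (k : ℝ))) atTop atTop :=
    Real.tendsto_log_atTop.comp hL
  have e1 := hL.eventually_ge_atTop 1000
  have e2 := hl.eventually_ge_atTop (193 / δ)
  have e3 : ∀ᶠ k : ℕ in atTop, (Nat.primeCounting k : ℝ) * Real.log k / k ≤ 1 + δ := by
    have h1 := PNT.pi_tendsto.comp (tendsto_natCast_atTop_atTop (R := ℝ))
    have h2 := h1.eventually (gt_mem_nhds (show (1 : ℝ) < 1 + δ by linarith))
    filter_upwards [h2] with k hk
    simp only [Function.comp_apply, Nat.floor_natCast] at hk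
    exact hk.le
  have e4 : ∀ᶠ k : ℕ in atTop, Real.log 2 + Real.log (Real.log (Real.log (k : ℝ))) ≤
      δ * Real.log (Real.log (k : ℝ)) := by
    have h1 : ∀ᶠ x : ℝ in atTop, Real.log x ≤ δ / 2 * x := by
      have h2 := Real.isLittleO_log_id_atTop.bound (half_pos hδ0)
      filter_upwards [h2, eventually_ge_atTop 1] with x hx hx1
      rw [Real.norm_of_nonneg (Real.log_nonneg hx1), id, Real.norm_of_nonneg (by linarith)] at hx
      exact hx
    filter_upwards [hl.eventually h1, hl.eventually_ge_atTop (2 * Real.log 2 / δ)] with k hk hk2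
    rw [div_le_iff₀ hδ0] at hk2
    linarith
  have e5 : ∀ᶠ k : ℕ in atTop, Real.log (k : ℝ) ^ 8 ≤ (k : ℝ) ^ (1 / 8 : ℝ) := by
    have h1 := (isLittleO_log_rpow_rpow_atTop (8 : ℝ) (show (0 : ℝ) < 1 / 8 by norm_num)).bound
      one_pos
    filter_upwards [tendsto_natCast_atTop_atTop.eventually h1, eventually_ge_atTop 1] with k hk hk1
    have h2 : (1 : ℝ) ≤ k := by exact_mod_cast hk1
    have h3 := Real.log_nonneg h2
    rw [one_mul, Real.norm_of_nonneg (by positivity), Real.norm_of_nonneg (by positivity)] at hk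
    have h4 : Real.log (k : ℝ) ^ (8 : ℝ) = Real.log (k : ℝ) ^ 8 := by
      rw [← Real.rpow_natCast]
      norm_num
    rwa [h4] at hk
  obtain ⟨k0, hk0⟩ := eventually_atTop.1
    (e1.and (e2.and (e3.and (e4.and (e5.and (eventually_ge_atTop 1))))))
  refine ⟨k0, fun k hk => ?_⟩
  obtain ⟨g1, g2, g3, g4, g5, g6⟩ := hk0 k hk
  obtain ⟨n, hn, hb, hle⟩ := up_main g6 rfl rfl hδ0 hδ1 g1 g5
    (by rw [div_le_iff₀ hδ0] at g2; linarith) g3 g4
  refine ⟨n, hn, hb, hle.trans ?_⟩
  have h1 : (0 : ℝ) ≤ Real.log (Real.log k) := le_trans (by positivity) g2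
  have h2 : (0 : ℝ) < Real.log k := by linarith
  have h3 : (0 : ℝ) ≤ k := Nat.cast_nonneg k
  gcongr

end Pool.Agent.ESel
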